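import Mathlib

/-!
# Project MD: elliptic curves over all multiquadratic fields, ordered by discriminant (statements)
-/

set_option autoImplicit false

namespace Pool.Agent.TH841.MD

open Finset

/-- lower bound for the sum of `h ^ ω(n)` over the squarefree integers prime to `Q` -/
def LOW : Prop := ∀ (h Q : ℕ), 1 ≤ h → 1 ≤ Q → ∃ c : ℝ, 0 < c ∧ ∀ X : ℕ, 2 ≤ X →
  c * (X * (Real.log X) ^ (h - 1)) ≤
    ∑ n ∈ (Icc 1 X).filter (fun n => Squarefree n ∧ n.Coprime Q), (h : ℝ) ^ n.primeFactors.card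

variable {s : ℕ}

/-- the product of the primes dividing one of the integers `d i` -/
def R (d : Fin s → ℤ) : ℕ := ∏ p ∈ (∏ i, d i).natAbs.primeFactors, p

open Classical in
/-- the `s`-tuples of squarefree integers, independent modulo squares, with `R d ≤ X` -/
noncomputable def Tup (s X : ℕ) : Finset (Fin s → ℤ) :=
  (Fintype.piFinset fun _ : Fin s => Icc (-(X : ℤ)) X).filter fun d =>
    (∀ i, Squarefree (d i)) ∧ R d ≤ X ∧
      ∀ T : Finset (Fin s), T.Nonempty → ¬ IsSquare (∏ i ∈ T, d i)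

/-- the squarefree part of the product of the `d i`, `i ∈ T` -/
def eT (d : Fin s → ℤ) (T : Finset (Fin s)) : ℤ :=
  (∏ i ∈ T, d i).sign *
    ∏ p ∈ ((∏ i, d i).natAbs.primeFactors : Finset ℕ).filter
      (fun p : ℕ => (T.filter (fun i => (p : ℤ) ∣ d i)).card % 2 = 1), (p : ℤ)

/-- the sum over the tuples -/
def CNT : Prop := ∀ (s : ℕ) (T : Finset (Fin s)), T.Nonempty →
  (∀ X : ℕ, ∀ d ∈ Tup s X, eT d T ≠ 0 ∧ ∃ w : ℤ, ∏ i ∈ T, d i = eT d T * w ^ 2) ∧
  ∀ (F : ℤ → ℝ), (∀ e, 0 ≤ F e) → ∀ X : ℕ,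
    ∑ d ∈ Tup s X, F (eT d T) ≤
      2 ^ s * ∑ g ∈ (Icc 1 X).filter Squarefree,
        ((2 : ℝ) ^ (s - 1) - 1) ^ g.primeFactors.card *
          ∑ e ∈ (Icc (-((X / g : ℕ) : ℤ)) ((X / g : ℕ) : ℤ)).filter (fun e => e ≠ 0),
            ((2 : ℝ) ^ (s - 1)) ^ e.natAbs.primeFactors.card * F e

/-- the number of the tuples, with the conditions `q i ∣ d i` for different primes `q i` -/
def TLOW : Prop := ∀ (s : ℕ) (q : Fin s → ℕ), (∀ i, (q i).Prime) → Function.Injective q →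
  ∀ X : ℕ, ∑ n ∈ (Icc 1 (X / ∏ i, q i)).filter (fun n => Squarefree n ∧ n.Coprime (∏ i, q i)),
    ((2 ^ s - 1 : ℕ) : ℝ) ^ n.primeFactors.card ≤ ((Tup s X).card : ℝ)

end Pool.Agent.TH841.MD
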