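import Mathlib
import Pool.Agent.TH841.MD.Stm

/-!
# Project MD, job 3104: the sum over the tuples of squarefree integers
-/

set_option autoImplicit false

namespace Pool.Agent.TH841.MD.CNTf

open Finset Pool.Agent.TH841.MD

section sets

variable {s : ℕ}

/-- the number of indices in `T` lying in `S` -/
def mS (T S : Finset (Fin s)) : ℕ := (T.filter (fun i => i ∈ S)).card

/-- toggling an element -/
def tog (i0 : Fin s) (S : Finset (Fin s)) : Finset (Fin s) :=
  if i0 ∈ S then S.erase i0 else insert i0 S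

theorem tog_tog (i0 : Fin s) (S : Finset (Fin s)) : tog i0 (tog i0 S) = S := by
  unfold tog
  by_cases h : i0 ∈ S
  · rw [if_pos h, if_neg (notMem_erase i0 S), insert_erase h]
  · rw [if_neg h, if_pos (mem_insert_self i0 S), erase_insert h]

theorem mS_tog {T : Finset (Fin s)} {i0 : Fin s} (h0 : i0 ∈ T) (S : Finset (Fin s)) :
    mS T (tog i0 S) % 2 = 1 ↔ mS T S % 2 = 0 := by
  unfold mS tog
  by_cases h : i0 ∈ S
  · rw [if_pos h]
    have h1 : T.filter (fun i => i ∈ S.erase i0) = (T.filter (fun i => i ∈ S)).erase i0 := by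
      ext i
      simp only [mem_filter, mem_erase]
      tauto
    have h2 : i0 ∈ T.filter (fun i => i ∈ S) := mem_filter.2 ⟨h0, h⟩
    rw [h1, card_erase_of_mem h2]
    have := card_pos.2 ⟨i0, h2⟩
    omega
  · rw [if_neg h]
    have h1 : T.filter (fun i => i ∈ insert i0 S) = insert i0 (T.filter (fun i => i ∈ S)) := by
      ext i
      simp only [mem_filter, mem_insert]
      constructor
      · rintro ⟨h1, h2 | h2⟩
        · exact Or.inl h2
        · exact Or.inr ⟨h1, h2⟩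
      · rintro (h1 | ⟨h1, h2⟩)
        · subst h1
          exact ⟨h0, Or.inl rfl⟩
        · exact ⟨h1, Or.inr h2⟩
    have h2 : i0 ∉ T.filter (fun i => i ∈ S) := fun h3 => h (mem_filter.1 h3).2
    rw [h1, card_insert_of_notMem h2]
    omega

/-- the sets with an odd number of elements in `T` -/
def Od (T : Finset (Fin s)) : Finset (Finset (Fin s)) := univ.filter fun S => mS T S % 2 = 1

/-- the sets with an even number of elements in `T` -/
def Ev (T : Finset (Fin s)) : Finset (Finset (Fin s)) := univ.filter fun S => mS T S % 2 = 0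

theorem card_Od_eq {T : Finset (Fin s)} (hT : T.Nonempty) : (Od T).card = (Ev T).card := by
  obtain ⟨i0, h0⟩ := hT
  apply card_nbij' (tog i0) (tog i0)
  · intro S hS
    have h1 := (mem_filter.1 hS).2
    have h2 := mS_tog h0 (tog i0 S)
    rw [tog_tog] at h2
    exact mem_filter.2 ⟨mem_univ _, h2.1 h1⟩
  · intro S hS
    have h1 := (mem_filter.1 hS).2
    exact mem_filter.2 ⟨mem_univ _, (mS_tog h0 S).2 h1⟩
  · intro S _
    exact tog_tog i0 S
  · intro S _
    exact tog_tog i0 S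

theorem card_add (T : Finset (Fin s)) : (Od T).card + (Ev T).card = 2 ^ s := by
  have h1 : Ev T = univ.filter fun S => ¬ (mS T S % 2 = 1) := by
    unfold Ev
    apply filter_congr
    intro S _
    omega
  rw [h1]
  unfold Od
  rw [card_filter_add_card_filter_not]
  simp

theorem card_Od {T : Finset (Fin s)} (hT : T.Nonempty) : (Od T).card = 2 ^ (s - 1) := by
  have h1 := card_add T
  have h2 := card_Od_eq hT
  obtain ⟨i0, -⟩ := hT
  have hs : 0 < s := i0.pos
  obtain ⟨r, rfl⟩ : ∃ r, s = r + 1 := ⟨s - 1, by omega⟩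
  rw [pow_succ] at h1
  simp only [Nat.add_sub_cancel]
  omega

theorem card_Ev {T : Finset (Fin s)} (hT : T.Nonempty) :
    ((Ev T).erase ∅).card = 2 ^ (s - 1) - 1 := by
  have h1 : ∅ ∈ Ev T := by
    refine mem_filter.2 ⟨mem_univ _, ?_⟩
    simp [mS]
  rw [card_erase_of_mem h1, ← card_Od_eq hT, card_Od hT]

end sets

section tuples

variable {s : ℕ} {d : Fin s → ℤ} (T : Finset (Fin s))

/-- the set of the indices `i` with `p ∣ d i` -/
def SS (d : Fin s → ℤ) (p : ℕ) : Finset (Fin s) := univ.filter fun i => (p : ℤ) ∣ d i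

theorem mS_SS (d : Fin s → ℤ) (p : ℕ) :
    mS T (SS d p) = (T.filter (fun i => (p : ℤ) ∣ d i)).card := by
  unfold mS SS
  congr 1
  apply filter_congr
  intro i _
  simp

theorem prod_ne (hd : ∀ i, Squarefree (d i)) : ∏ i, d i ≠ 0 :=
  prod_ne_zero_iff.2 fun i _ => (hd i).ne_zero

theorem natAbs_eq (hd : ∀ i, Squarefree (d i)) (i : Fin s) :
    (d i).natAbs =
      ∏ p ∈ (∏ i, d i).natAbs.primeFactors.filter (fun p : ℕ => i ∈ SS d p), p := by
  have h0 : d i ≠ 0 := (hd i).ne_zero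
  have h1 := prod_ne hd
  have h2 : (∏ i, d i).natAbs.primeFactors.filter (fun p : ℕ => i ∈ SS d p) =
      (d i).natAbs.primeFactors := by
    ext p
    rw [mem_filter, Nat.mem_primeFactors_of_ne_zero (Int.natAbs_ne_zero.2 h1),
      Nat.mem_primeFactors_of_ne_zero (Int.natAbs_ne_zero.2 h0)]
    unfold SS
    rw [mem_filter, Int.natCast_dvd]
    constructor
    · rintro ⟨⟨h2, -⟩, -, h3⟩
      exact ⟨h2, h3⟩
    · rintro ⟨h2, h3⟩
      refine ⟨⟨h2, h3.trans ?_⟩, mem_univ _, h3⟩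
      exact Int.natAbs_dvd_natAbs.2 (dvd_prod_of_mem d (mem_univ i))
  rw [h2, Nat.prod_primeFactors_of_squarefree (Int.squarefree_natAbs.2 (hd i))]

theorem natAbs_prod (hd : ∀ i, Squarefree (d i)) :
    (∏ i ∈ T, d i).natAbs =
      ∏ p ∈ (∏ i, d i).natAbs.primeFactors, p ^ (mS T (SS d p)) := by
  have h1 : (∏ i ∈ T, d i).natAbs = ∏ i ∈ T, (d i).natAbs := map_prod Int.natAbsHom d T
  rw [h1]
  have h2 : ∀ i ∈ T, (d i).natAbs =
      ∏ p ∈ (∏ i, d i).natAbs.primeFactors, if i ∈ SS d p then p else 1 := by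
    intro i _
    rw [natAbs_eq hd i, prod_filter]
  rw [prod_congr rfl h2, prod_comm]
  apply prod_congr rfl
  intro p _
  rw [← prod_filter, prod_const, mS]

/-- the primes with an odd exponent -/
def OP (d : Fin s → ℤ) (T : Finset (Fin s)) : Finset ℕ :=
  (∏ i, d i).natAbs.primeFactors.filter fun p => mS T (SS d p) % 2 = 1

/-- the primes with an even exponent -/
def EP (d : Fin s → ℤ) (T : Finset (Fin s)) : Finset ℕ :=
  (∏ i, d i).natAbs.primeFactors.filter fun p => ¬ (mS T (SS d p) % 2 = 1)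

theorem eT_eq : eT d T = (∏ i ∈ T, d i).sign * ((∏ p ∈ OP d T, p : ℕ) : ℤ) := by
  unfold eT OP
  rw [Nat.cast_prod]
  congr 2
  apply filter_congr
  intro p _
  rw [mS_SS]

theorem OP_prime {p : ℕ} (hp : p ∈ OP d T) : p.Prime :=
  Nat.prime_of_mem_primeFactors (mem_filter.1 hp).1

theorem EP_prime {p : ℕ} (hp : p ∈ EP d T) : p.Prime :=
  Nat.prime_of_mem_primeFactors (mem_filter.1 hp).1

theorem OP_ne : (∏ p ∈ OP d T, p : ℕ) ≠ 0 :=
  prod_ne_zero_iff.2 fun _ hp => (OP_prime T hp).ne_zero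

theorem prodT_ne (hd : ∀ i, Squarefree (d i)) : ∏ i ∈ T, d i ≠ 0 :=
  prod_ne_zero_iff.2 fun i _ => (hd i).ne_zero

theorem eT_ne (hd : ∀ i, Squarefree (d i)) : eT d T ≠ 0 := by
  rw [eT_eq]
  apply mul_ne_zero
  · rw [Ne, Int.sign_eq_zero_iff_zero]
    exact prodT_ne T hd
  · exact_mod_cast OP_ne T

theorem natAbs_eT (hd : ∀ i, Squarefree (d i)) : (eT d T).natAbs = ∏ p ∈ OP d T, p := by
  rw [eT_eq, Int.natAbs_mul, Int.natAbs_natCast, Int.natAbs_sign_of_ne_zero (prodT_ne T hd),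
    one_mul]

theorem part1 (hd : ∀ i, Squarefree (d i)) : ∃ w : ℤ, ∏ i ∈ T, d i = eT d T * w ^ 2 := by
  refine ⟨((∏ p ∈ (∏ i, d i).natAbs.primeFactors, p ^ (mS T (SS d p) / 2) : ℕ) : ℤ), ?_⟩
  have h1 : (∏ i ∈ T, d i).natAbs = (∏ p ∈ OP d T, p) *
      (∏ p ∈ (∏ i, d i).natAbs.primeFactors, p ^ (mS T (SS d p) / 2)) ^ 2 := by
    rw [natAbs_prod T hd, OP, prod_filter, ← prod_pow, ← prod_mul_distrib]
    apply prod_congr rfl
    intro p _
    rw [← pow_mul]
    by_cases h : mS T (SS d p) % 2 = 1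
    · rw [if_pos h, ← pow_succ']
      congr 1
      omega
    · rw [if_neg h, one_mul]
      congr 1
      omega
  calc ∏ i ∈ T, d i = (∏ i ∈ T, d i).sign * ((∏ i ∈ T, d i).natAbs : ℤ) :=
        (Int.sign_mul_natAbs _).symm
    _ = _ := by
        rw [h1, eT_eq]
        push_cast
        ring

theorem R_eq : R d = (∏ p ∈ EP d T, p) * (∏ p ∈ OP d T, p) := by
  unfold R EP OP
  rw [mul_comm, prod_filter_mul_prod_filter_not]

end tuples

/-- the code of a tuple -/
def code {s : ℕ} (g : ℕ) (e : ℤ) (d : Fin s → ℤ) : (Fin s → Bool) ×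
    (((p : ℕ) → p ∈ g.primeFactors → Finset (Fin s)) ×
      ((p : ℕ) → p ∈ e.natAbs.primeFactors → Finset (Fin s))) :=
  (fun i => decide (0 < d i), (fun p _ => SS d p, fun p _ => SS d p))

theorem fib {s : ℕ} {T : Finset (Fin s)} (hT : T.Nonempty) (A : Finset (Fin s → ℤ)) (g : ℕ)
    (e : ℤ) (hA : ∀ d ∈ A, (∀ i, Squarefree (d i)) ∧ (∏ p ∈ EP d T, p) = g ∧ eT d T = e) :
    A.card ≤ 2 ^ s * ((2 ^ (s - 1) - 1) ^ g.primeFactors.card *
      (2 ^ (s - 1)) ^ e.natAbs.primeFactors.card) := by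
  classical
  have hg : ∀ d ∈ A, g.primeFactors = EP d T := by
    intro d hd
    rw [← (hA d hd).2.1]
    exact Nat.primeFactors_prod fun p hp => EP_prime T hp
  have he : ∀ d ∈ A, e.natAbs.primeFactors = OP d T := by
    intro d hd
    rw [← (hA d hd).2.2, natAbs_eT T (hA d hd).1]
    exact Nat.primeFactors_prod fun p hp => OP_prime T hp
  have hP : ∀ d ∈ A, (∏ i, d i).natAbs.primeFactors = g.primeFactors ∪ e.natAbs.primeFactors := by
    intro d hd
    rw [hg d hd, he d hd, EP, OP, union_comm, filter_union_filter_not_eq]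
  have hc : ((univ : Finset (Fin s → Bool)) ×ˢ
      ((g.primeFactors.pi fun _ : ℕ => (Ev T).erase ∅) ×ˢ
        (e.natAbs.primeFactors.pi fun _ : ℕ => Od T))).card =
      2 ^ s * ((2 ^ (s - 1) - 1) ^ g.primeFactors.card *
      (2 ^ (s - 1)) ^ e.natAbs.primeFactors.card) := by
    rw [card_product, card_product, card_pi, card_pi, prod_const, prod_const, card_Ev hT,
      card_Od hT]
    simp
  rw [← hc]
  apply card_le_card_of_injOn (code g e)
  · intro d hd
    have hd' : d ∈ A := hd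
    have hsq := (hA d hd').1
    refine mem_product.2 ⟨mem_univ _, mem_product.2 ⟨mem_pi.2 fun p hp => ?_,
      mem_pi.2 fun p hp => ?_⟩⟩
    · have hp' : p ∈ EP d T := by rwa [← hg d hd']
      have h1 := mem_filter.1 hp'
      have h2 := (Nat.mem_primeFactors_of_ne_zero (Int.natAbs_ne_zero.2 (prod_ne hsq))).1 h1.1
      refine mem_erase.2 ⟨?_, mem_filter.2 ⟨mem_univ _, ?_⟩⟩
      · have h3 : (p : ℤ) ∣ ∏ i, d i := Int.natCast_dvd.2 h2.2
        rw [Prime.dvd_finsetProd_iff (Nat.prime_iff_prime_int.1 h2.1)] at h3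
        obtain ⟨i, -, hi⟩ := h3
        apply Nonempty.ne_empty
        exact ⟨i, mem_filter.2 ⟨mem_univ _, hi⟩⟩
      · have h3 := h1.2
        show mS T (SS d p) % 2 = 0
        omega
    · have hp' : p ∈ OP d T := by rwa [← he d hd']
      exact mem_filter.2 ⟨mem_univ _, (mem_filter.1 hp').2⟩
  · intro d hd d' hd' hcode
    have hd1 : d ∈ A := hd
    have hd1' : d' ∈ A := hd'
    have hsq := (hA d hd1).1
    have hsq' := (hA d' hd1').1
    have h1 : ∀ i, decide (0 < d i) = decide (0 < d' i) := fun i =>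
      congrFun (congrArg Prod.fst hcode) i
    have h2 : ∀ p (hp : p ∈ g.primeFactors), SS d p = SS d' p := fun p hp =>
      congrFun (congrFun (congrArg (fun x => x.2.1) hcode) p) hp
    have h3 : ∀ p (hp : p ∈ e.natAbs.primeFactors), SS d p = SS d' p := fun p hp =>
      congrFun (congrFun (congrArg (fun x => x.2.2) hcode) p) hp
    have h4 : ∀ p ∈ g.primeFactors ∪ e.natAbs.primeFactors, SS d p = SS d' p := by
      intro p hp
      rcases mem_union.1 hp with h | h
      · exact h2 p h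
      · exact h3 p h
    have h5 : ∀ i, (d i).natAbs = (d' i).natAbs := by
      intro i
      rw [natAbs_eq hsq i, natAbs_eq hsq' i, hP d hd1, hP d' hd1']
      congr 1
      apply filter_congr
      intro p hp
      rw [h4 p hp]
    funext i
    have h6 := h1 i
    rw [decide_eq_decide] at h6
    have h7 := h5 i
    have h8 := (hsq i).ne_zero
    have h9 := (hsq' i).ne_zero
    omega

theorem cnt : Pool.Agent.TH841.MD.CNT := by
  classical
  intro s T hT
  have hsq : ∀ X : ℕ, ∀ d ∈ Tup s X, ∀ i, Squarefree (d i) := by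
    intro X d hd
    unfold Tup at hd
    exact (mem_filter.1 hd).2.1
  have hR : ∀ X : ℕ, ∀ d ∈ Tup s X, R d ≤ X := by
    intro X d hd
    unfold Tup at hd
    exact (mem_filter.1 hd).2.2.1
  refine ⟨fun X d hd => ⟨eT_ne T (hsq X d hd), part1 T (hsq X d hd)⟩, ?_⟩
  intro F hF X
  have hEP0 : ∀ d : Fin s → ℤ, (∏ p ∈ EP d T, p) ≠ 0 := fun d =>
    prod_ne_zero_iff.2 fun _ hp => (EP_prime T hp).ne_zero
  have hmap1 : ∀ d ∈ Tup s X, (∏ p ∈ EP d T, p) ∈ (Icc 1 X).filter Squarefree := by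
    intro d hd
    have h1 := hR X d hd
    rw [R_eq T] at h1
    have h2 : 1 ≤ ∏ p ∈ OP d T, p := Nat.one_le_iff_ne_zero.2 (OP_ne T)
    have h3 : ∏ p ∈ EP d T, p ≤ X := (Nat.le_mul_of_pos_right _ h2).trans h1
    refine mem_filter.2 ⟨mem_Icc.2 ⟨Nat.one_le_iff_ne_zero.2 (hEP0 d), h3⟩, ?_⟩
    have h4 : ∏ p ∈ EP d T, p ∣ (∏ i, d i).natAbs.primeFactors.prod fun p => p :=
      prod_dvd_prod_of_subset _ _ _ (filter_subset _ _)
    refine Squarefree.squarefree_of_dvd h4 ?_
    rw [← Nat.radical_eq_prod_primeFactors]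
    exact UniqueFactorizationMonoid.squarefree_radical
  rw [← sum_fiberwise_of_maps_to hmap1, mul_sum]
  apply sum_le_sum
  intro g hg
  have hg1 : 1 ≤ g := (mem_Icc.1 (mem_filter.1 hg).1).1
  have hmap2 : ∀ d ∈ (Tup s X).filter (fun d => ∏ p ∈ EP d T, p = g),
      eT d T ∈ (Icc (-((X / g : ℕ) : ℤ)) ((X / g : ℕ) : ℤ)).filter (fun e => e ≠ 0) := by
    intro d hd
    obtain ⟨hd1, hd2⟩ := mem_filter.1 hd
    have h1 := hR X d hd1
    rw [R_eq T, hd2, ← natAbs_eT T (hsq X d hd1), mul_comm] at h1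
    have h2 : (eT d T).natAbs ≤ X / g := (Nat.le_div_iff_mul_le (by omega)).2 h1
    refine mem_filter.2 ⟨mem_Icc.2 ?_, eT_ne T (hsq X d hd1)⟩
    omega
  rw [← sum_fiberwise_of_maps_to hmap2, mul_sum, mul_sum]
  apply sum_le_sum
  intro e he
  set B := ((Tup s X).filter (fun d => ∏ p ∈ EP d T, p = g)).filter (fun d => eT d T = e) with hB
  have h1 : ∑ d ∈ B, F (eT d T) = B.card * F e := by
    have h2 : ∀ d ∈ B, F (eT d T) = F e := by
      intro d hd
      rw [(mem_filter.1 hd).2]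
    rw [sum_congr rfl h2, sum_const, nsmul_eq_mul]
  rw [h1]
  have h2 := fib hT B g e (by
    intro d hd
    obtain ⟨hd1, hd2⟩ := mem_filter.1 hd
    obtain ⟨hd3, hd4⟩ := mem_filter.1 hd1
    exact ⟨hsq X d hd3, hd4, hd2⟩)
  have h3 : (B.card : ℝ) ≤ 2 ^ s * (((2 : ℝ) ^ (s - 1) - 1) ^ g.primeFactors.card *
      (2 ^ (s - 1)) ^ e.natAbs.primeFactors.card) := by
    have h4 : (B.card : ℝ) ≤ ((2 ^ s * ((2 ^ (s - 1) - 1) ^ g.primeFactors.card *
      (2 ^ (s - 1)) ^ e.natAbs.primeFactors.card) : ℕ) : ℝ) := by exact_mod_cast h2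
    rw [Nat.cast_mul, Nat.cast_mul, Nat.cast_pow, Nat.cast_pow, Nat.cast_pow, Nat.cast_pow,
      Nat.cast_sub Nat.one_le_two_pow, Nat.cast_pow] at h4
    exact_mod_cast h4
  calc (B.card : ℝ) * F e ≤ (2 ^ s * (((2 : ℝ) ^ (s - 1) - 1) ^ g.primeFactors.card *
      (2 ^ (s - 1)) ^ e.natAbs.primeFactors.card)) * F e :=
        mul_le_mul_of_nonneg_right h3 (hF e)
    _ = _ := by ring

end Pool.Agent.TH841.MD.CNTf
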