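import Mathlib
import Pool.Agent.TH841.MD.Stm

/-!
# MD-LOW: lower bound for the sum of `h ^ ω(n)` over the squarefree integers prime to `Q`
(job 3103, helper999)
-/

set_option autoImplicit false

namespace Pool.Agent.TH841.MD.LOWf

open Finset

lemma sum_le_sum_inj {α β : Type*} (s : Finset α) (t : Finset β) (φ : α → β) (f : α → ℝ)
    (g : β → ℝ) (hφ : ∀ a ∈ s, φ a ∈ t) (hinj : Set.InjOn φ (s : Set α))
    (hfg : ∀ a ∈ s, f a ≤ g (φ a)) (hg : ∀ b ∈ t, 0 ≤ g b) :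
    ∑ a ∈ s, f a ≤ ∑ b ∈ t, g b := by
  classical
  calc ∑ a ∈ s, f a ≤ ∑ a ∈ s, g (φ a) := sum_le_sum hfg
    _ = ∑ b ∈ s.image φ, g b := (sum_image hinj).symm
    _ ≤ ∑ b ∈ t, g b := sum_le_sum_of_subset_of_nonneg (image_subset_iff.2 hφ)
      (fun b hb _ => hg b hb)

/-- squarefree integers up to `N`, prime to `Q` -/
def F (Q N : ℕ) : Finset ℕ := (Icc 1 N).filter (fun n => Squarefree n ∧ n.Coprime Q)

lemma mem_F {Q N n : ℕ} : n ∈ F Q N ↔ (1 ≤ n ∧ n ≤ N) ∧ Squarefree n ∧ n.Coprime Q := by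
  unfold F
  rw [mem_filter, mem_Icc]

/-- the harmonic sum -/
noncomputable def U (Q h N : ℕ) : ℝ := ∑ n ∈ F Q N, (h : ℝ) ^ n.primeFactors.card / n

lemma U_ge_one {Q h N : ℕ} (hN : 1 ≤ N) : 1 ≤ U Q h N := by
  have h1 : 1 ∈ F Q N := mem_F.2 ⟨⟨le_rfl, hN⟩, squarefree_one, Nat.coprime_one_left Q⟩
  have h2 := Finset.single_le_sum (f := fun n : ℕ => (h : ℝ) ^ n.primeFactors.card / n)
    (fun i _ => by positivity) h1
  simpa [U] using h2

lemma sum_inv_sq (N : ℕ) : ∑ v ∈ Icc 1 N, 1 / (v : ℝ) ^ 2 ≤ 2 := by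
  rcases Nat.eq_zero_or_pos N with rfl | hN
  · simp
  · have h1 := sum_Ioc_inv_sq_le_sub (α := ℝ) (k := 1) (n := N) one_ne_zero hN
    have h2 : Icc 1 N = insert 1 (Ioc 1 N) := by
      ext v
      simp only [mem_Icc, mem_insert, mem_Ioc]
      omega
    rw [h2, sum_insert (by simp)]
    have h3 : ∑ v ∈ Ioc 1 N, 1 / (v : ℝ) ^ 2 = ∑ v ∈ Ioc 1 N, ((v : ℝ) ^ 2)⁻¹ :=
      sum_congr rfl fun v _ => by rw [one_div]
    rw [h3]
    have h4 : (0 : ℝ) ≤ (N : ℝ)⁻¹ := by positivity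
    simp only [Nat.cast_one, inv_one] at h1
    norm_num
    linarith

lemma base (Q : ℕ) (hQ : 1 ≤ Q) : ∃ c : ℝ, 0 < c ∧ ∀ N : ℕ, 1 ≤ N → c * Real.log N ≤ U Q 1 N := by
  classical
  have hdv : 0 < (Q.divisors.card : ℝ) := by
    exact_mod_cast card_pos.2 ⟨1, Nat.one_mem_divisors.2 (by omega)⟩
  refine ⟨1 / (Q.divisors.card * 2), by positivity, ?_⟩
  intro N hN
  have hex : ∀ n : ℕ, ∃ p : ℕ × ℕ, p.2 ^ 2 * p.1 = n ∧ Squarefree p.1 := by
    intro n
    obtain ⟨a, b, h1, h2⟩ := Nat.sq_mul_squarefree n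
    exact ⟨(a, b), h1, h2⟩
  choose p hp1 hp2 using hex
  have hlog : Real.log N ≤ ∑ n ∈ Icc 1 N, 1 / (n : ℝ) := by
    have h1 := log_add_one_le_harmonic N
    have h2 : Real.log N ≤ Real.log ((N : ℝ) + 1) :=
      Real.log_le_log (by exact_mod_cast hN) (by linarith)
    rw [harmonic_eq_sum_Icc] at h1
    push_cast at h1
    refine h2.trans (h1.trans (le_of_eq ?_))
    exact sum_congr rfl fun n _ => by rw [one_div]
  have hmain : ∑ n ∈ Icc 1 N, 1 / (n : ℝ) ≤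
      ∑ x ∈ Q.divisors ×ˢ (Icc 1 N ×ˢ F Q N), 1 / (x.2.1 : ℝ) ^ 2 *
        ((1 : ℕ) : ℝ) ^ x.2.2.primeFactors.card / (x.2.2 : ℝ) := by
    have key : ∀ n ∈ Icc 1 N, 1 ≤ (p n).2 ∧ 1 ≤ (p n).1 ∧
        (p n).1.gcd Q * ((p n).1 / (p n).1.gcd Q) = (p n).1 := by
      intro n hn
      rw [mem_Icc] at hn
      have h1 := hp1 n
      refine ⟨?_, ?_, Nat.mul_div_cancel' (Nat.gcd_dvd_left _ _)⟩
      · by_contra h
        have : (p n).2 = 0 := by omega
        rw [this] at h1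
        simp at h1
        omega
      · exact Nat.one_le_iff_ne_zero.2 (hp2 n).ne_zero
    refine sum_le_sum_inj _ _ (fun n => ((p n).1.gcd Q, ((p n).2, (p n).1 / (p n).1.gcd Q))) _ _
      ?_ ?_ ?_ ?_
    · intro n hn
      obtain ⟨k1, k2, k3⟩ := key n hn
      rw [mem_Icc] at hn
      have hle : (p n).1 ≤ n := by
        calc (p n).1 = 1 * (p n).1 := (one_mul _).symm
          _ ≤ (p n).2 ^ 2 * (p n).1 := Nat.mul_le_mul_right _ (Nat.one_le_pow _ _ k1)
          _ = n := hp1 n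
      have hle2 : (p n).2 ≤ n := by
        calc (p n).2 ≤ (p n).2 ^ 2 := Nat.le_self_pow (by norm_num) _
          _ = (p n).2 ^ 2 * 1 := (mul_one _).symm
          _ ≤ (p n).2 ^ 2 * (p n).1 := Nat.mul_le_mul_left _ k2
          _ = n := hp1 n
      have hsq : Squarefree ((p n).1.gcd Q * ((p n).1 / (p n).1.gcd Q)) := by
        rw [k3]; exact hp2 n
      rw [mem_product, mem_product]
      refine ⟨Nat.mem_divisors.2 ⟨Nat.gcd_dvd_right _ _, by omega⟩, mem_Icc.2 ⟨k1, by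
        dsimp only; omega⟩, ?_⟩
      dsimp only
      rw [mem_F]
      refine ⟨⟨?_, (Nat.div_le_self _ _).trans (hle.trans hn.2)⟩,
        (hp2 n).squarefree_of_dvd (Nat.div_dvd_of_dvd (Nat.gcd_dvd_left _ _)), ?_⟩
      · exact Nat.div_pos (Nat.gcd_le_left _ (by omega)) (Nat.gcd_pos_of_pos_left _ (by omega))
      · have hc := Nat.coprime_of_squarefree_mul hsq
        have h1 : ((p n).1 / (p n).1.gcd Q).gcd Q ∣ (p n).1.gcd Q :=
          Nat.dvd_gcd ((Nat.gcd_dvd_left _ _).trans (Nat.div_dvd_of_dvd (Nat.gcd_dvd_left _ _)))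
            (Nat.gcd_dvd_right _ _)
        exact Nat.dvd_one.1 (hc ▸ Nat.dvd_gcd h1 (Nat.gcd_dvd_left _ _))
    · intro n hn n' hn' heq
      obtain ⟨-, -, k3⟩ := key n (by exact_mod_cast hn)
      obtain ⟨-, -, k3'⟩ := key n' (by exact_mod_cast hn')
      simp only [Prod.mk.injEq] at heq
      obtain ⟨e1, e2, e3⟩ := heq
      rw [← hp1 n, ← hp1 n', ← k3, ← k3', e1, e2]
      rw [e1] at e3
      rw [e3]
    · intro n hn
      obtain ⟨k1, k2, k3⟩ := key n hn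
      dsimp only
      rw [Nat.cast_one, one_pow, mul_one, div_div]
      have hb : 0 < (p n).1 / (p n).1.gcd Q :=
        Nat.div_pos (Nat.gcd_le_left _ (by omega)) (Nat.gcd_pos_of_pos_left _ (by omega))
      refine one_div_le_one_div_of_le (by positivity) ?_
      have hle : (p n).2 ^ 2 * ((p n).1 / (p n).1.gcd Q) ≤ n := by
        calc (p n).2 ^ 2 * ((p n).1 / (p n).1.gcd Q) ≤ (p n).2 ^ 2 * (p n).1 :=
              Nat.mul_le_mul_left _ (Nat.div_le_self _ _)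
          _ = n := hp1 n
      exact_mod_cast hle
    · intro x _
      positivity
  have hsum : ∑ x ∈ Q.divisors ×ˢ (Icc 1 N ×ˢ F Q N), 1 / (x.2.1 : ℝ) ^ 2 *
        ((1 : ℕ) : ℝ) ^ x.2.2.primeFactors.card / (x.2.2 : ℝ) =
      Q.divisors.card * ((∑ v ∈ Icc 1 N, 1 / (v : ℝ) ^ 2) * U Q 1 N) := by
    rw [sum_product]
    dsimp only
    rw [sum_const, nsmul_eq_mul]
    congr 1
    rw [sum_product]
    unfold U
    rw [sum_mul_sum]
    refine sum_congr rfl fun v _ => sum_congr rfl fun b _ => ?_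
    dsimp only
    rw [mul_div_assoc]
  rw [hsum] at hmain
  have hU : 0 ≤ U Q 1 N := zero_le_one.trans (U_ge_one hN)
  have h3 := mul_le_mul_of_nonneg_right (sum_inv_sq N) hU
  have h4 := mul_le_mul_of_nonneg_left h3 hdv.le
  rw [div_mul_eq_mul_div, one_mul, div_le_iff₀ (by positivity)]
  linarith

lemma sum_divisors (h n : ℕ) :
    ∑ d ∈ n.divisors.filter Squarefree, (h : ℝ) ^ d.primeFactors.card ≤
      ((h : ℝ) + 1) ^ n.primeFactors.card := by
  classical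
  have h1 : ((h : ℝ) + 1) ^ n.primeFactors.card =
      ∑ t ∈ n.primeFactors.powerset, (h : ℝ) ^ t.card := by
    have := Finset.sum_pow_mul_eq_add_pow (h : ℝ) 1 n.primeFactors
    rw [← this]
    exact sum_congr rfl fun t _ => by rw [one_pow, mul_one]
  rw [h1]
  refine sum_le_sum_inj _ _ (fun d => d.primeFactors) _ _ ?_ ?_ ?_ ?_
  · intro d hd
    rw [mem_filter, Nat.mem_divisors] at hd
    exact mem_powerset.2 (Nat.primeFactors_mono hd.1.1 hd.1.2)
  · intro d hd d' hd' heq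
    rw [mem_coe, mem_filter] at hd hd'
    dsimp only at heq
    rw [← Nat.prod_primeFactors_of_squarefree hd.2, ← Nat.prod_primeFactors_of_squarefree hd'.2,
      heq]
  · intro d _
    exact le_rfl
  · intro t _
    positivity

lemma sum_T (Q h M : ℕ) :
    ∑ g ∈ F Q M, (h : ℝ) ^ g.primeFactors.card / (g : ℝ) ^ 2 ≤ Real.exp (2 * h) := by
  classical
  have h1 : ∑ g ∈ F Q M, (h : ℝ) ^ g.primeFactors.card / (g : ℝ) ^ 2 ≤
      ∑ t ∈ (Icc 1 M).powerset, ∏ p ∈ t, ((h : ℝ) * (1 / (p : ℝ) ^ 2)) := by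
    refine sum_le_sum_inj _ _ (fun d => d.primeFactors) _ _ ?_ ?_ ?_ ?_
    · intro d hd
      rw [mem_F] at hd
      rw [mem_powerset]
      intro p hp
      rw [mem_Icc]
      exact ⟨(Nat.prime_of_mem_primeFactors hp).one_le,
        (Nat.le_of_dvd hd.1.1 (Nat.dvd_of_mem_primeFactors hp)).trans hd.1.2⟩
    · intro d hd d' hd' heq
      rw [mem_coe, mem_F] at hd hd'
      dsimp only at heq
      rw [← Nat.prod_primeFactors_of_squarefree hd.2.1,
        ← Nat.prod_primeFactors_of_squarefree hd'.2.1, heq]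
    · intro d hd
      rw [mem_F] at hd
      rw [prod_mul_distrib, prod_const, prod_div_distrib, prod_const_one, prod_pow]
      have h2 : ∏ p ∈ d.primeFactors, (p : ℝ) = d := by
        rw [← Nat.cast_prod, Nat.prod_primeFactors_of_squarefree hd.2.1]
      rw [h2, mul_one_div]
    · intro t _
      positivity
  refine h1.trans ?_
  rw [← Finset.prod_one_add]
  calc ∏ p ∈ Icc 1 M, (1 + (h : ℝ) * (1 / (p : ℝ) ^ 2))
      ≤ ∏ p ∈ Icc 1 M, Real.exp ((h : ℝ) * (1 / (p : ℝ) ^ 2)) := by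
        refine prod_le_prod (fun p _ => by positivity) fun p _ => ?_
        have := Real.add_one_le_exp ((h : ℝ) * (1 / (p : ℝ) ^ 2))
        linarith
    _ = Real.exp ((h : ℝ) * ∑ p ∈ Icc 1 M, 1 / (p : ℝ) ^ 2) := by
        rw [← Real.exp_sum, mul_sum]
    _ ≤ Real.exp (2 * h) := by
        refine Real.exp_le_exp.2 ?_
        have := mul_le_mul_of_nonneg_left (sum_inv_sq M) (Nat.cast_nonneg h : (0 : ℝ) ≤ h)
        linarith

lemma step_mul (Q h M : ℕ) :
    U Q h M * U Q 1 M ≤ (∑ g ∈ F Q M, (h : ℝ) ^ g.primeFactors.card / (g : ℝ) ^ 2) *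
      U Q (h + 1) (M ^ 2) := by
  classical
  have h1 : (∑ g ∈ F Q M, (h : ℝ) ^ g.primeFactors.card / (g : ℝ) ^ 2) *
      (∑ n ∈ F Q (M ^ 2), ∑ d ∈ n.divisors.filter Squarefree, (h : ℝ) ^ d.primeFactors.card / n) ≤
      (∑ g ∈ F Q M, (h : ℝ) ^ g.primeFactors.card / (g : ℝ) ^ 2) * U Q (h + 1) (M ^ 2) := by
    refine mul_le_mul_of_nonneg_left ?_ (sum_nonneg fun _ _ => by positivity)
    unfold U
    refine sum_le_sum fun n _ => ?_
    rw [← sum_div]
    push_cast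
    exact div_le_div_of_nonneg_right (sum_divisors h n) (Nat.cast_nonneg n)
  refine le_trans ?_ h1
  rw [sum_sigma', sum_mul_sum, ← sum_product']
  unfold U
  rw [sum_mul_sum, ← sum_product']
  have key : ∀ x ∈ F Q M ×ˢ F Q M, 0 < x.1.gcd x.2 ∧ x.1.gcd x.2 * (x.1 / x.1.gcd x.2) = x.1 ∧
      x.1.gcd x.2 * (x.2 / x.1.gcd x.2) = x.2 ∧ 0 < x.1 / x.1.gcd x.2 ∧
      0 < x.2 / x.1.gcd x.2 ∧ (x.1 / x.1.gcd x.2).Coprime (x.2 / x.1.gcd x.2) := by
    intro x hx
    rw [mem_product, mem_F, mem_F] at hx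
    have hg : 0 < x.1.gcd x.2 := Nat.gcd_pos_of_pos_left _ hx.1.1.1
    exact ⟨hg, Nat.mul_div_cancel' (Nat.gcd_dvd_left _ _), Nat.mul_div_cancel' (Nat.gcd_dvd_right _ _),
      Nat.div_pos (Nat.gcd_le_left _ hx.1.1.1) hg, Nat.div_pos (Nat.gcd_le_right _ hx.2.1.1) hg,
      Nat.coprime_div_gcd_div_gcd hg⟩
  refine sum_le_sum_inj _ _ (fun x : ℕ × ℕ => (x.1.gcd x.2,
    (⟨(x.1 / x.1.gcd x.2) * (x.2 / x.1.gcd x.2), x.1 / x.1.gcd x.2⟩ : (_ : ℕ) × ℕ))) _ _
    ?_ ?_ ?_ ?_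
  · intro x hx
    obtain ⟨k1, k2, k3, k4, k5, k6⟩ := key x hx
    rw [mem_product, mem_F, mem_F] at hx
    obtain ⟨⟨⟨a1, a2⟩, a3, a4⟩, ⟨b1, b2⟩, b3, b4⟩ := hx
    have da : x.1 / x.1.gcd x.2 ∣ x.1 := Nat.div_dvd_of_dvd (Nat.gcd_dvd_left _ _)
    have db : x.2 / x.1.gcd x.2 ∣ x.2 := Nat.div_dvd_of_dvd (Nat.gcd_dvd_right _ _)
    have dg : x.1.gcd x.2 ∣ x.1 := Nat.gcd_dvd_left _ _
    rw [mem_product]
    dsimp only
    refine ⟨mem_F.2 ⟨⟨k1, (Nat.le_of_dvd a1 dg).trans a2⟩, a3.squarefree_of_dvd dg,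
      Nat.Coprime.coprime_dvd_left dg a4⟩, mem_sigma.2 ⟨?_, ?_⟩⟩
    · dsimp only
      refine mem_F.2 ⟨⟨Nat.mul_pos k4 k5, ?_⟩, ?_, ?_⟩
      · rw [sq]
        exact Nat.mul_le_mul ((Nat.le_of_dvd a1 da).trans a2) ((Nat.le_of_dvd b1 db).trans b2)
      · exact (Nat.squarefree_mul k6).2 ⟨a3.squarefree_of_dvd da, b3.squarefree_of_dvd db⟩
      · exact Nat.Coprime.mul_left (Nat.Coprime.coprime_dvd_left da a4)
          (Nat.Coprime.coprime_dvd_left db b4)
    · dsimp only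
      rw [mem_filter, Nat.mem_divisors]
      exact ⟨⟨Dvd.intro _ rfl, (Nat.mul_pos k4 k5).ne'⟩, a3.squarefree_of_dvd da⟩
  · intro x hx x' hx' heq
    obtain ⟨k1, k2, k3, k4, k5, k6⟩ := key x (by exact_mod_cast hx)
    obtain ⟨k1', k2', k3', k4', k5', k6'⟩ := key x' (by exact_mod_cast hx')
    simp only [Prod.mk.injEq, Sigma.mk.injEq, heq_eq_eq] at heq
    obtain ⟨e1, e2, e3⟩ := heq
    rw [e3] at e2
    have e4 := Nat.eq_of_mul_eq_mul_left k4' e2
    refine Prod.ext ?_ ?_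
    · rw [← k2, ← k2', e3, e1]
    · rw [← k3, ← k3', e4, e1]
  · intro x hx
    obtain ⟨k1, k2, k3, k4, k5, k6⟩ := key x hx
    rw [mem_product, mem_F, mem_F] at hx
    obtain ⟨⟨⟨a1, a2⟩, a3, a4⟩, ⟨b1, b2⟩, b3, b4⟩ := hx
    dsimp only
    rw [Nat.cast_one, one_pow]
    have hsq : Squarefree (x.1.gcd x.2 * (x.1 / x.1.gcd x.2)) := by rw [k2]; exact a3
    have hc := Nat.coprime_of_squarefree_mul hsq
    have hcard : x.1.primeFactors.card = (x.1.gcd x.2).primeFactors.card +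
        (x.1 / x.1.gcd x.2).primeFactors.card := by
      conv_lhs => rw [← k2]
      rw [Nat.Coprime.primeFactors_mul hc,
        card_union_of_disjoint (Nat.Coprime.disjoint_primeFactors hc)]
    rw [hcard, pow_add]
    have e1 : (x.1 : ℝ) = (x.1.gcd x.2 : ℝ) * ((x.1 / x.1.gcd x.2 : ℕ) : ℝ) := by
      exact_mod_cast k2.symm
    have e2 : (x.2 : ℝ) = (x.1.gcd x.2 : ℝ) * ((x.2 / x.1.gcd x.2 : ℕ) : ℝ) := by
      exact_mod_cast k3.symm
    refine le_of_eq ?_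
    have p1 : (0 : ℝ) < (x.1.gcd x.2 : ℝ) := by exact_mod_cast k1
    have p2 : (0 : ℝ) < ((x.1 / x.1.gcd x.2 : ℕ) : ℝ) := by exact_mod_cast k4
    have p3 : (0 : ℝ) < ((x.2 / x.1.gcd x.2 : ℕ) : ℝ) := by exact_mod_cast k5
    set G : ℝ := (x.1.gcd x.2 : ℝ) with hG
    set A : ℝ := ((x.1 / x.1.gcd x.2 : ℕ) : ℝ) with hA
    set B : ℝ := ((x.2 / x.1.gcd x.2 : ℕ) : ℝ) with hB
    rw [Nat.cast_mul, ← hA, ← hB, e1, e2]
    field_simp
  · intro x _
    positivity

/-- the harmonic sum -/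
lemma U_lower (Q : ℕ) (hQ : 1 ≤ Q) (h : ℕ) : ∃ c : ℝ, 0 < c ∧ ∀ N : ℕ, 1 ≤ N →
    c * Real.log N ^ (h + 1) ≤ U Q (h + 1) N := by
  obtain ⟨c₁, hc₁, hb⟩ := base Q hQ
  induction h with
  | zero => exact ⟨c₁, hc₁, fun N hN => by simpa using hb N hN⟩
  | succ h ih =>
    obtain ⟨c, hc, hi⟩ := ih
    set E := Real.exp (2 * ((h + 1 : ℕ) : ℝ)) with hE
    have hE0 : 0 < E := Real.exp_pos _
    refine ⟨min (1 / 2 ^ (h + 1 + 1)) (c * c₁ / (E * 4 ^ (h + 1 + 1))), by positivity, ?_⟩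
    intro N hN
    have hlogN : 0 ≤ Real.log N := Real.log_nonneg (by exact_mod_cast hN)
    by_cases hN4 : N < 4
    · have h1 : Real.log N ≤ 2 := by
        have : Real.log N ≤ (N : ℝ) - 1 := Real.log_le_sub_one_of_pos (by exact_mod_cast hN)
        have h2 : (N : ℝ) ≤ 3 := by exact_mod_cast (by omega : N ≤ 3)
        linarith
      have h2 : Real.log N ^ (h + 1 + 1) ≤ 2 ^ (h + 1 + 1) := pow_le_pow_left₀ hlogN h1 _
      calc min (1 / 2 ^ (h + 1 + 1)) (c * c₁ / (E * 4 ^ (h + 1 + 1))) * Real.log N ^ (h + 1 + 1)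
          ≤ 1 / 2 ^ (h + 1 + 1) * 2 ^ (h + 1 + 1) :=
            mul_le_mul (min_le_left _ _) h2 (by positivity) (by positivity)
        _ = 1 := by field_simp
        _ ≤ _ := U_ge_one hN
    · push Not at hN4
      set M := Nat.sqrt N with hM
      have hMM : M ^ 2 ≤ N := Nat.sqrt_le' N
      have hM2 : 2 ≤ M := by
        rw [hM, Nat.le_sqrt']
        omega
      have hMN : N < (M + 1) ^ 2 := Nat.lt_succ_sqrt' N
      have hM4 : N ≤ M ^ 4 := by
        have h1 : M + 1 ≤ M ^ 2 := by nlinarith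
        calc N ≤ (M + 1) ^ 2 := hMN.le
          _ ≤ (M ^ 2) ^ 2 := Nat.pow_le_pow_left h1 2
          _ = M ^ 4 := by rw [← pow_mul]
      have hlog4 : Real.log N ≤ 4 * Real.log M := by
        have h1 : Real.log N ≤ Real.log ((M : ℝ) ^ 4) :=
          Real.log_le_log (by exact_mod_cast hN) (by exact_mod_cast hM4)
        rw [Real.log_pow] at h1
        exact_mod_cast h1
      have hlogM : 0 ≤ Real.log M := Real.log_nonneg (by exact_mod_cast (by omega : 1 ≤ M))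
      have h1 := step_mul Q (h + 1) M
      have h2 := sum_T Q (h + 1) M
      have hU2 : 0 ≤ U Q (h + 1 + 1) (M ^ 2) :=
        zero_le_one.trans (U_ge_one (Nat.one_le_pow _ _ (by omega)))
      have h3 : U Q (h + 1) M * U Q 1 M ≤ E * U Q (h + 1 + 1) (M ^ 2) :=
        h1.trans (mul_le_mul_of_nonneg_right h2 hU2)
      have h4 : U Q (h + 1 + 1) (M ^ 2) ≤ U Q (h + 1 + 1) N := by
        unfold U
        refine sum_le_sum_of_subset_of_nonneg ?_ fun _ _ _ => by positivity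
        intro n hn
        rw [mem_F] at hn ⊢
        exact ⟨⟨hn.1.1, hn.1.2.trans hMM⟩, hn.2⟩
      have h5 : (c * Real.log M ^ (h + 1)) * (c₁ * Real.log M) ≤ U Q (h + 1) M * U Q 1 M :=
        mul_le_mul (hi M (by omega)) (hb M (by omega)) (by positivity)
          (zero_le_one.trans (U_ge_one (by omega)))
      have h6 : Real.log N ^ (h + 1 + 1) ≤ 4 ^ (h + 1 + 1) * Real.log M ^ (h + 1 + 1) := by
        rw [← mul_pow]
        exact pow_le_pow_left₀ hlogN hlog4 _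
      calc min (1 / 2 ^ (h + 1 + 1)) (c * c₁ / (E * 4 ^ (h + 1 + 1))) * Real.log N ^ (h + 1 + 1)
          ≤ c * c₁ / (E * 4 ^ (h + 1 + 1)) * (4 ^ (h + 1 + 1) * Real.log M ^ (h + 1 + 1)) :=
            mul_le_mul (min_le_right _ _) h6 (by positivity) (by positivity)
        _ = ((c * Real.log M ^ (h + 1)) * (c₁ * Real.log M)) / E := by
            rw [pow_succ (Real.log M)]
            field_simp
        _ ≤ (E * U Q (h + 1 + 1) (M ^ 2)) / E :=
            div_le_div_of_nonneg_right (h5.trans h3) hE0.le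
        _ = U Q (h + 1 + 1) (M ^ 2) := by field_simp
        _ ≤ _ := h4

/-- Chebyshev's lower bound -/
lemma pi_lower (n : ℕ) (hn : 16 ≤ n) : (n : ℝ) / 2 ≤ (Nat.primeCounting n : ℝ) * Real.log n := by
  have h1 := Chebyshev.psi_le_primeCounting_mul_log n
  have h2 := Chebyshev.psi_ge n
  have h3 : Real.log ((n : ℝ) + 1) ≤ 5 * Real.log 2 + (((n : ℝ) + 1) / 32 - 1) := by
    have h4 : Real.log ((n : ℝ) + 1) = Real.log (2 ^ 5) + Real.log (((n : ℝ) + 1) / 32) := by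
      rw [← Real.log_mul (by positivity) (by positivity)]
      congr 1
      ring
    rw [h4, Real.log_pow]
    have h5 := Real.log_le_sub_one_of_pos (show (0 : ℝ) < ((n : ℝ) + 1) / 32 by positivity)
    push_cast
    linarith
  have h6 := Real.log_two_gt_d9
  have h7 := Real.log_two_lt_d9
  have h8 : (16 : ℝ) ≤ n := by exact_mod_cast hn
  nlinarith

/-- the primes that are used -/
def PR (Q A n : ℕ) : Finset ℕ := (Ioc A n).filter (fun p => p.Prime ∧ ¬ p ∣ Q)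

lemma mem_PR {Q A n p : ℕ} : p ∈ PR Q A n ↔ (A < p ∧ p ≤ n) ∧ p.Prime ∧ ¬ p ∣ Q := by
  unfold PR
  rw [mem_filter, mem_Ioc]

lemma card_PR (Q A n : ℕ) (hQ : 1 ≤ Q) :
    Nat.primeCounting n ≤ (PR Q A n).card + (A + Q) := by
  classical
  have h1 : Nat.primeCounting n = (Nat.primesLE n).card := by
    rw [Nat.primesLE_card_eq_primeCounting]
  rw [h1]
  have h2 : Nat.primesLE n ⊆ PR Q A n ∪ (Icc 1 A ∪ Icc 1 Q) := by
    intro p hp
    rw [Nat.mem_primesLE] at hp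
    rw [mem_union, mem_union, mem_PR, mem_Icc, mem_Icc]
    by_cases hA : p ≤ A
    · exact Or.inr (Or.inl ⟨hp.2.one_le, hA⟩)
    · by_cases hd : p ∣ Q
      · exact Or.inr (Or.inr ⟨hp.2.one_le, Nat.le_of_dvd hQ hd⟩)
      · exact Or.inl ⟨⟨by omega, hp.1⟩, hp.2, hd⟩
  refine (card_le_card h2).trans ((card_union_le _ _).trans ?_)
  refine Nat.add_le_add_left ((card_union_le _ _).trans ?_) _
  simp

lemma S_lower (Q h A X : ℕ) (hh : 1 ≤ h) :
    ∑ a ∈ F Q A, (h : ℝ) ^ a.primeFactors.card * ((PR Q A (X / a)).card : ℝ) ≤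
      ∑ n ∈ F Q X, (h : ℝ) ^ n.primeFactors.card := by
  classical
  have e1 : ∑ a ∈ F Q A, (h : ℝ) ^ a.primeFactors.card * ((PR Q A (X / a)).card : ℝ) =
      ∑ x ∈ (F Q A).sigma (fun a => PR Q A (X / a)), (h : ℝ) ^ x.1.primeFactors.card := by
    rw [sum_sigma]
    refine sum_congr rfl fun a _ => ?_
    dsimp only
    rw [sum_const, nsmul_eq_mul, mul_comm]
  rw [e1]
  have hh' : (1 : ℝ) ≤ h := by exact_mod_cast hh
  have key : ∀ x ∈ (F Q A).sigma (fun a => PR Q A (X / a)), x.1.Coprime x.2 := by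
    intro x hx
    rw [mem_sigma, mem_F, mem_PR] at hx
    obtain ⟨⟨⟨a1, a2⟩, a3, a4⟩, ⟨b1, b2⟩, b3, b4⟩ := hx
    rw [Nat.coprime_comm, Nat.Prime.coprime_iff_not_dvd b3]
    intro h
    have := Nat.le_of_dvd a1 h
    omega
  refine sum_le_sum_inj _ _ (fun x => x.1 * x.2) _ _ ?_ ?_ ?_ ?_
  · intro x hx
    have hc := key x hx
    rw [mem_sigma, mem_F, mem_PR] at hx
    obtain ⟨⟨⟨a1, a2⟩, a3, a4⟩, ⟨b1, b2⟩, b3, b4⟩ := hx
    rw [mem_F]
    refine ⟨⟨Nat.mul_pos a1 b3.pos, ?_⟩, (Nat.squarefree_mul hc).2 ⟨a3, b3.squarefree⟩,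
      Nat.Coprime.mul_left a4 ((Nat.Prime.coprime_iff_not_dvd b3).2 b4)⟩
    calc x.1 * x.2 ≤ x.1 * (X / x.1) := Nat.mul_le_mul_left _ b2
      _ ≤ X := Nat.mul_div_le _ _
  · intro x hx x' hx' heq
    rw [mem_coe, mem_sigma, mem_F, mem_PR] at hx hx'
    obtain ⟨⟨⟨a1, a2⟩, a3, a4⟩, ⟨b1, b2⟩, b3, b4⟩ := hx
    obtain ⟨⟨⟨a1', a2'⟩, a3', a4'⟩, ⟨b1', b2'⟩, b3', b4'⟩ := hx'
    dsimp only at heq
    have h1 : x.2 ∣ x'.1 * x'.2 := by rw [← heq]; exact Dvd.intro_left _ rfl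
    have h2 : x.2 = x'.2 := by
      rcases b3.dvd_mul.1 h1 with h | h
      · have := Nat.le_of_dvd a1' h
        omega
      · exact (Nat.prime_dvd_prime_iff_eq b3 b3').1 h
    have h3 : x.1 = x'.1 := by
      rw [h2] at heq
      exact Nat.eq_of_mul_eq_mul_right b3'.pos heq
    obtain ⟨u, v⟩ := x
    obtain ⟨u', v'⟩ := x'
    simp only at h2 h3
    subst h2 h3
    rfl
  · intro x hx
    have hc := key x hx
    rw [Nat.Coprime.primeFactors_mul hc,
      card_union_of_disjoint (Nat.Coprime.disjoint_primeFactors hc)]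
    exact pow_le_pow_right₀ hh' (Nat.le_add_right _ _)
  · intro n _
    positivity

lemma sqrt_pow4 (N : ℕ) (hN : 4 ≤ N) : N ≤ Nat.sqrt N ^ 4 := by
  set M := Nat.sqrt N with hM
  have hM2 : 2 ≤ M := by
    rw [hM, Nat.le_sqrt']
    omega
  have hMN : N < (M + 1) ^ 2 := Nat.lt_succ_sqrt' N
  have h1 : M + 1 ≤ M ^ 2 := by nlinarith
  calc N ≤ (M + 1) ^ 2 := hMN.le
    _ ≤ (M ^ 2) ^ 2 := Nat.pow_le_pow_left h1 2
    _ = M ^ 4 := by rw [← pow_mul]

theorem low : Pool.Agent.TH841.MD.LOW := by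
  classical
  intro h Q hh hQ
  obtain ⟨k, rfl⟩ : ∃ k, h = k + 1 := ⟨h - 1, by omega⟩
  obtain ⟨c, hc, hU⟩ := U_lower Q hQ k
  rw [Nat.add_sub_cancel]
  -- the threshold
  have hev : ∀ᶠ X : ℕ in Filter.atTop, 8 * (1 + (Q : ℝ)) * Real.log X ≤ √(X : ℝ) := by
    have h1 : (fun x : ℝ => Real.log x) =o[Filter.atTop] fun x => x ^ ((1 : ℝ) / 2) :=
      isLittleO_log_rpow_atTop (by norm_num)
    have h2 := h1.bound (show (0 : ℝ) < 1 / (8 * (1 + Q)) by positivity)
    have h3 := (tendsto_natCast_atTop_atTop (R := ℝ)).eventually h2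
    filter_upwards [h3, Filter.eventually_ge_atTop 1] with X hX hX1
    have h4 : 0 ≤ Real.log X := Real.log_nonneg (by exact_mod_cast hX1)
    rw [Real.norm_of_nonneg h4, Real.norm_of_nonneg (by positivity), ← Real.sqrt_eq_rpow] at hX
    rw [div_mul_eq_mul_div, one_mul, le_div_iff₀ (by positivity)] at hX
    linarith
  obtain ⟨X₀, hX₀⟩ := Filter.eventually_atTop.1 hev
  set X₁ : ℕ := max X₀ 256 with hX₁
  have hX₁1 : (1 : ℝ) ≤ X₁ := by exact_mod_cast (by omega : 1 ≤ X₁)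
  refine ⟨min (1 / (X₁ : ℝ) ^ (k + 1)) (c / (8 * 16 ^ (k + 1))), by positivity, ?_⟩
  intro X hX
  have hXr : (2 : ℝ) ≤ X := by exact_mod_cast hX
  have hlog0 : 0 < Real.log X := Real.log_pos (by linarith)
  show _ ≤ ∑ n ∈ F Q X, _
  by_cases hlt : X < X₁
  · have h1 : (1 : ℝ) ≤ ∑ n ∈ F Q X, ((k + 1 : ℕ) : ℝ) ^ n.primeFactors.card := by
      have h1 : 1 ∈ F Q X := mem_F.2 ⟨⟨le_rfl, by omega⟩, squarefree_one, Nat.coprime_one_left Q⟩
      have h2 := Finset.single_le_sum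
        (f := fun n : ℕ => ((k + 1 : ℕ) : ℝ) ^ n.primeFactors.card) (fun i _ => by positivity) h1
      simpa using h2
    refine le_trans ?_ h1
    have h2 : (X : ℝ) ≤ X₁ := by exact_mod_cast hlt.le
    have h3 : Real.log X ≤ X₁ := by
      have := Real.log_le_sub_one_of_pos (show (0 : ℝ) < X by linarith)
      linarith
    have h4 : (X : ℝ) * Real.log X ^ k ≤ X₁ ^ (k + 1) := by
      rw [pow_succ']
      exact mul_le_mul h2 (pow_le_pow_left₀ hlog0.le h3 k) (by positivity) (by positivity)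
    calc min (1 / (X₁ : ℝ) ^ (k + 1)) (c / (8 * 16 ^ (k + 1))) * (X * Real.log X ^ k)
        ≤ 1 / (X₁ : ℝ) ^ (k + 1) * X₁ ^ (k + 1) :=
          mul_le_mul (min_le_left _ _) h4 (by positivity) (by positivity)
      _ = 1 := by field_simp
  · push Not at hlt
    have hXX₀ : X₀ ≤ X := (le_max_left _ _).trans hlt
    have hX256 : 256 ≤ X := (le_max_right _ _).trans hlt
    have hcond := hX₀ X hXX₀
    set B := Nat.sqrt X with hB
    set A := Nat.sqrt B with hA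
    have hB16 : 16 ≤ B := by rw [hB, Nat.le_sqrt']; omega
    have hA4 : 4 ≤ A := by rw [hA, Nat.le_sqrt']; omega
    have hAB : A ^ 2 ≤ B := Nat.sqrt_le' B
    have hBX : B ^ 2 ≤ X := Nat.sqrt_le' X
    have hX16 : X ≤ A ^ 16 := by
      calc X ≤ B ^ 4 := sqrt_pow4 X (by omega)
        _ ≤ (A ^ 4) ^ 4 := Nat.pow_le_pow_left (sqrt_pow4 B (by omega)) 4
        _ = A ^ 16 := by rw [← pow_mul]
    have hlogA : Real.log X ≤ 16 * Real.log A := by
      have h1 : Real.log X ≤ Real.log ((A : ℝ) ^ 16) :=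
        Real.log_le_log (by linarith) (by exact_mod_cast hX16)
      rw [Real.log_pow] at h1
      exact_mod_cast h1
    have hBr : (B : ℝ) ≤ √(X : ℝ) := by
      apply Real.le_sqrt_of_sq_le
      exact_mod_cast hBX
    have hA2r : (A : ℝ) ^ 2 ≤ √(X : ℝ) := by
      refine le_trans ?_ hBr
      exact_mod_cast hAB
    have hA1r : (1 : ℝ) ≤ A := by exact_mod_cast (by omega : 1 ≤ A)
    have hsX : √(X : ℝ) * √(X : ℝ) = X := Real.mul_self_sqrt (by linarith)
    have hs0 : 0 ≤ √(X : ℝ) := Real.sqrt_nonneg _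
    -- the counting of primes
    have hcnt : ∀ a ∈ F Q A, (X : ℝ) / (8 * a) ≤ ((PR Q A (X / a)).card : ℝ) * Real.log X := by
      intro a ha
      rw [mem_F] at ha
      obtain ⟨⟨a1, a2⟩, -, -⟩ := ha
      have ha0 : (0 : ℝ) < a := by exact_mod_cast a1
      have haA : (a : ℝ) ≤ A := by exact_mod_cast a2
      have hn16 : 16 ≤ X / a := by
        rw [Nat.le_div_iff_mul_le a1]
        calc 16 * a ≤ 16 * A := Nat.mul_le_mul_left _ a2
          _ = 4 ^ 2 * A := by norm_num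
          _ ≤ A ^ 2 * A ^ 2 :=
            Nat.mul_le_mul (Nat.pow_le_pow_left hA4 2) (Nat.le_self_pow (by norm_num) A)
          _ ≤ B * B := Nat.mul_le_mul hAB hAB
          _ ≤ X := by rw [← sq]; exact hBX
      have h1 := pi_lower (X / a) hn16
      have h2 : (Nat.primeCounting (X / a) : ℝ) ≤ ((PR Q A (X / a)).card : ℝ) + (A + Q) := by
        exact_mod_cast card_PR Q A (X / a) hQ
      have h3 : Real.log ((X / a : ℕ) : ℝ) ≤ Real.log X := by
        apply Real.log_le_log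
        · exact_mod_cast (by omega : 0 < X / a)
        · exact_mod_cast Nat.div_le_self X a
      have h4 : (X : ℝ) / a ≤ 2 * ((X / a : ℕ) : ℝ) := by
        have h5 : (X : ℝ) / a < ((X / a : ℕ) : ℝ) + 1 := by
          rw [div_lt_iff₀ ha0]
          have := Nat.lt_div_mul_add (a := X) a1
          have h6 : X < (X / a + 1) * a := by linarith [add_mul (X / a) 1 a]
          exact_mod_cast h6
        have h6 : (16 : ℝ) ≤ ((X / a : ℕ) : ℝ) := by exact_mod_cast hn16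
        linarith
      have h5 : ((X / a : ℕ) : ℝ) / 2 ≤
          (((PR Q A (X / a)).card : ℝ) + (A + Q)) * Real.log X :=
        h1.trans (mul_le_mul h2 h3 (Real.log_nonneg (by
          exact_mod_cast (by omega : 1 ≤ X / a))) (by positivity))
      have h6 : ((A : ℝ) + Q) * Real.log X ≤ X / (8 * a) := by
        rw [le_div_iff₀ (by positivity)]
        have h7 : (a : ℝ) * (A + Q) ≤ A ^ 2 * (1 + Q) := by
          have hQ0 : (0 : ℝ) ≤ Q := Nat.cast_nonneg _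
          calc (a : ℝ) * (A + Q) ≤ A * (A + Q) := mul_le_mul_of_nonneg_right haA (by positivity)
            _ = A ^ 2 + A * Q := by ring
            _ ≤ A ^ 2 + A ^ 2 * Q := by
              have : (A : ℝ) ≤ A ^ 2 := by nlinarith
              have := mul_le_mul_of_nonneg_right this hQ0
              linarith
            _ = A ^ 2 * (1 + Q) := by ring
        calc ((A : ℝ) + Q) * Real.log X * (8 * a) = (a * (A + Q)) * (8 * Real.log X) := by ring
          _ ≤ (A ^ 2 * (1 + Q)) * (8 * Real.log X) :=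
            mul_le_mul_of_nonneg_right h7 (by positivity)
          _ = A ^ 2 * (8 * (1 + (Q : ℝ)) * Real.log X) := by ring
          _ ≤ √(X : ℝ) * √(X : ℝ) := mul_le_mul hA2r hcond (by positivity) hs0
          _ = X := hsX
      have h8 : (X : ℝ) / (8 * a) = (X / a) / 8 := by field_simp
      rw [h8] at h6 ⊢
      linarith [add_mul ((PR Q A (X / a)).card : ℝ) ((A : ℝ) + Q) (Real.log X)]
    have hS := S_lower Q (k + 1) A X (by omega)
    have h1 : (X : ℝ) / 8 * U Q (k + 1) A ≤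
        (∑ n ∈ F Q X, ((k + 1 : ℕ) : ℝ) ^ n.primeFactors.card) * Real.log X := by
      refine le_trans ?_ (mul_le_mul_of_nonneg_right hS hlog0.le)
      unfold U
      rw [mul_sum, sum_mul]
      refine sum_le_sum fun a ha => ?_
      have h2 := mul_le_mul_of_nonneg_left (hcnt a ha)
        (by positivity : (0 : ℝ) ≤ ((k + 1 : ℕ) : ℝ) ^ a.primeFactors.card)
      calc (X : ℝ) / 8 * (((k + 1 : ℕ) : ℝ) ^ a.primeFactors.card / a) =
          ((k + 1 : ℕ) : ℝ) ^ a.primeFactors.card * (X / (8 * a)) := by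
            field_simp
        _ ≤ _ := h2
        _ = _ := by ring
    have h2 := hU A (by omega)
    have h3 : Real.log X ^ (k + 1) ≤ 16 ^ (k + 1) * Real.log A ^ (k + 1) := by
      rw [← mul_pow]
      exact pow_le_pow_left₀ hlog0.le hlogA _
    have h4 : (c / (8 * 16 ^ (k + 1)) * (X * Real.log X ^ k)) * Real.log X ≤
        (∑ n ∈ F Q X, ((k + 1 : ℕ) : ℝ) ^ n.primeFactors.card) * Real.log X := by
      refine le_trans ?_ h1
      calc (c / (8 * 16 ^ (k + 1)) * (X * Real.log X ^ k)) * Real.log X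
          = c / (8 * 16 ^ (k + 1)) * X * Real.log X ^ (k + 1) := by rw [pow_succ]; ring
        _ ≤ c / (8 * 16 ^ (k + 1)) * X * (16 ^ (k + 1) * Real.log A ^ (k + 1)) :=
          mul_le_mul_of_nonneg_left h3 (by positivity)
        _ = (X : ℝ) / 8 * (c * Real.log A ^ (k + 1)) := by field_simp
        _ ≤ (X : ℝ) / 8 * U Q (k + 1) A := mul_le_mul_of_nonneg_left h2 (by positivity)
    have h5 := le_of_mul_le_mul_right h4 hlog0
    refine le_trans (mul_le_mul_of_nonneg_right (min_le_right _ _) (by positivity)) h5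

end Pool.Agent.TH841.MD.LOWf
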