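import Mathlib
import Pool.Agent.TH841.PT.WtL
import Pool.Agent.TH841.MD.Stm

/-!
# Project MD: upper bounds
-/

set_option autoImplicit false

namespace Pool.Agent.TH841.MD

open Finset Polynomial

open Pool.Agent.TH841.PT (Irr Sp exp_lam sn_w rho_X')

open Pool.Agent.W307.SE (SN SN_nonneg)

lemma irr_X : Irr (fun _ : Fin 1 => (X : ℤ[X])) where
  irr _ := Polynomial.irreducible_X
  deg _ := by rw [natDegree_X]; norm_num
  assoc j l h := absurd (Subsingleton.elim j l) h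

/-- sums over squarefree numbers and Euler products -/
lemma sum_le_prod (mu : ℝ) (hmu : 0 ≤ mu) (x : ℕ) :
    ∑ g ∈ (Icc 1 x).filter Squarefree, mu ^ g.primeFactors.card / (g : ℝ) ≤
      ∏ p ∈ (Icc 1 x).filter Nat.Prime, (1 + mu / (p : ℝ)) := by
  classical
  rw [prod_one_add]
  have h1 : ∀ g ∈ (Icc 1 x).filter Squarefree, mu ^ g.primeFactors.card / (g : ℝ) =
      ∏ p ∈ g.primeFactors, mu / (p : ℝ) := by
    intro g hg
    have h2 := (mem_filter.1 hg).2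
    rw [prod_div_distrib, prod_const]
    congr 1
    have h3 := Nat.prod_primeFactors_of_squarefree h2
    rw [← Nat.cast_prod, h3]
  rw [sum_congr rfl h1]
  have hinj : Set.InjOn (fun g : ℕ => g.primeFactors) ((Icc 1 x).filter Squarefree : Set ℕ) := by
    intro a ha b hb hab
    have ha' := (mem_filter.1 (mem_coe.1 ha)).2
    have hb' := (mem_filter.1 (mem_coe.1 hb)).2
    have hab' : a.primeFactors = b.primeFactors := hab
    rw [← Nat.prod_primeFactors_of_squarefree ha', ← Nat.prod_primeFactors_of_squarefree hb', hab']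
  rw [← sum_image (f := fun S : Finset ℕ => ∏ p ∈ S, mu / (p : ℝ)) hinj]
  refine sum_le_sum_of_subset_of_nonneg ?_ (fun S _ _ => prod_nonneg fun p _ => by positivity)
  intro S hS
  obtain ⟨g, hg, rfl⟩ := mem_image.1 hS
  have hg' := mem_filter.1 hg
  rw [mem_powerset]
  intro p hp
  have hpp := Nat.prime_of_mem_primeFactors hp
  have := Nat.le_of_dvd (by have := (mem_Icc.1 hg'.1).1; omega) (Nat.dvd_of_mem_primeFactors hp)
  exact mem_filter.2 ⟨mem_Icc.2 ⟨hpp.one_lt.le, this.trans (mem_Icc.1 hg'.1).2⟩, hpp⟩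

/-- the harmonic sum with weights -/
lemma ups (mu : ℝ) (hmu : 0 ≤ mu) : ∃ K : ℝ, 0 ≤ K ∧ ∀ x : ℕ, 2 ≤ x →
    ∑ g ∈ (Icc 1 x).filter Squarefree, mu ^ g.primeFactors.card / (g : ℝ) ≤
      K * (Real.log x) ^ mu := by
  classical
  obtain ⟨z, hz⟩ := exp_lam irr_X (c := 1) one_ne_zero mu
  obtain ⟨K, hK0, hK⟩ := hz z le_rfl
  refine ⟨Real.exp (∑ p ∈ (Icc 1 z).filter Nat.Prime, mu / (p : ℝ)) * K, by positivity,
    fun x hx => ?_⟩
  refine (sum_le_prod mu hmu x).trans ?_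
  have h1 : ∏ p ∈ (Icc 1 x).filter Nat.Prime, (1 + mu / (p : ℝ)) ≤
      Real.exp (∑ p ∈ (Icc 1 x).filter Nat.Prime, mu / (p : ℝ)) := by
    rw [Real.exp_sum]
    refine prod_le_prod (fun p _ => by positivity) fun p _ => ?_
    rw [add_comm]
    exact Real.add_one_le_exp _
  have h2 : ∑ p ∈ (Icc 1 x).filter Nat.Prime, mu / (p : ℝ) ≤
      ∑ p ∈ (Icc 1 z).filter Nat.Prime, mu / (p : ℝ) +
        ∑ p ∈ Pool.Agent.W262.RK.PS z x, mu / (p : ℝ) := by
    have hd : Disjoint ((Icc 1 z).filter Nat.Prime) (Pool.Agent.W262.RK.PS z x) := by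
      rw [disjoint_left]
      intro p hp hp'
      have h3 := (mem_Icc.1 (mem_filter.1 hp).1).2
      have h4 := (Pool.Agent.TH841.PT.mem_PS'.1 hp').1.1
      omega
    rw [← sum_union hd]
    refine sum_le_sum_of_subset_of_nonneg ?_ fun p _ _ => by positivity
    intro p hp
    have hp' := mem_filter.1 hp
    have hp2 := mem_Icc.1 hp'.1
    rw [mem_union]
    rcases Nat.lt_or_ge z p with h | h
    · exact Or.inr (Pool.Agent.TH841.PT.mem_PS'.2 ⟨⟨h, hp2.2⟩, hp'.2⟩)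
    · exact Or.inl (mem_filter.2 ⟨mem_Icc.2 ⟨hp2.1, h⟩, hp'.2⟩)
  have h3 := hK x hx
  have h4 : Sp (fun p => mu * (Pool.Agent.H474R2.PG.rho (C (1 : ℤ) * ∏ i : Fin 1, X) p : ℝ)) z x =
      ∑ p ∈ Pool.Agent.W262.RK.PS z x, mu / (p : ℝ) := by
    unfold Sp
    refine sum_congr rfl fun p hp => ?_
    have hpp := (Pool.Agent.TH841.PT.mem_PS'.1 hp).2
    beta_reduce
    rw [C_1, one_mul, Fin.prod_const, pow_one, rho_X' hpp]
    simp
  rw [h4] at h3
  have h5 : ((1 : ℕ) : ℝ) = 1 := Nat.cast_one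
  rw [h5, mul_one] at h3
  calc ∏ p ∈ (Icc 1 x).filter Nat.Prime, (1 + mu / (p : ℝ))
      ≤ Real.exp (∑ p ∈ (Icc 1 z).filter Nat.Prime, mu / (p : ℝ) +
        ∑ p ∈ Pool.Agent.W262.RK.PS z x, mu / (p : ℝ)) := h1.trans (Real.exp_le_exp.2 h2)
    _ = Real.exp (∑ p ∈ (Icc 1 z).filter Nat.Prime, mu / (p : ℝ)) *
        Real.exp (∑ p ∈ Pool.Agent.W262.RK.PS z x, mu / (p : ℝ)) := Real.exp_add _ _
    _ ≤ Real.exp (∑ p ∈ (Icc 1 z).filter Nat.Prime, mu / (p : ℝ)) *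
        (K * (Real.log x) ^ mu) := mul_le_mul_of_nonneg_left h3 (Real.exp_pos _).le
    _ = _ := by ring

/-- the weighted moments over all integers of absolute value at most `y` -/
lemma mom_all (a : Fin 3 → ℤ) (ha : ∀ k, a k ≠ 0) (ha2 : a 0 - a 1 = a 2) (lam : ℝ)
    (hlam : 1 ≤ lam) (k : ℕ) : ∃ K : ℝ, 0 ≤ K ∧ ∀ x y : ℕ, 2 ≤ x → 1 ≤ y → y ≤ x →
      ∑ e ∈ (Icc (-(y : ℤ)) (y : ℤ)).filter (fun e => e ≠ 0),
        lam ^ e.natAbs.primeFactors.card * SN (a 0 * e) (a 1 * e) ^ k ≤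
          K * (y * (Real.log x) ^ (lam - 1)) := by
  classical
  obtain ⟨K, hK0, hK⟩ := sn_w irr_X one_pos (c := 1) one_ne_zero a ha ha2 lam (by linarith) k 1
  refine ⟨K * (3 * 3 ^ (lam - 1)), by positivity, fun x y hx hy hyx => ?_⟩
  have h1 := hK (-(y : ℤ) - 1) (2 * y + 1) (by omega) (by
    rw [pow_one, abs_le]
    push_cast
    constructor <;> omega)
  have h2 : ∀ t : ℤ, (C (1 : ℤ) * ∏ i : Fin 1, X).eval t = t := by
    intro t
    rw [C_1, one_mul, Fin.prod_const, pow_one, eval_X]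
  simp only [h2] at h1
  have h3 : Ioc (-(y : ℤ) - 1) (-(y : ℤ) - 1 + ((2 * y + 1 : ℕ) : ℤ)) = Icc (-(y : ℤ)) (y : ℤ) := by
    ext t
    rw [mem_Ioc, mem_Icc]
    push_cast
    constructor <;> intro h <;> constructor <;> omega
  rw [h3] at h1
  refine h1.trans ?_
  have hx' : (2 : ℝ) ≤ x := by exact_mod_cast hx
  have hy' : (1 : ℝ) ≤ y := by exact_mod_cast hy
  have hyx' : (y : ℝ) ≤ x := by exact_mod_cast hyx
  have hlx : 0 < Real.log x := Real.log_pos (by linarith)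
  have h4 : Real.log ((2 * y + 1 : ℕ) : ℝ) ≤ 3 * Real.log x := by
    have h5 : ((2 * y + 1 : ℕ) : ℝ) ≤ (x : ℝ) ^ 3 := by
      push_cast
      nlinarith [mul_le_mul hx' hx' (by norm_num) (by linarith)]
    have h6 := Real.log_le_log (by positivity) h5
    rw [Real.log_pow] at h6
    exact_mod_cast h6
  have h7 : (Real.log ((2 * y + 1 : ℕ) : ℝ)) ^ ((lam - 1) * ((1 : ℕ) : ℝ)) ≤
      3 ^ (lam - 1) * (Real.log x) ^ (lam - 1) := by
    rw [Nat.cast_one, mul_one, ← Real.mul_rpow (by norm_num) hlx.le]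
    exact Real.rpow_le_rpow (Real.log_natCast_nonneg _) h4 (by linarith)
  have h8 : ((2 * y + 1 : ℕ) : ℝ) ≤ 3 * y := by
    push_cast
    linarith
  calc K * (((2 * y + 1 : ℕ) : ℝ) * (Real.log ((2 * y + 1 : ℕ) : ℝ)) ^ ((lam - 1) * ((1 : ℕ) : ℝ)))
      ≤ K * ((3 * y) * (3 ^ (lam - 1) * (Real.log x) ^ (lam - 1))) := by
        refine mul_le_mul_of_nonneg_left (mul_le_mul h8 h7 ?_ (by positivity)) hK0
        exact Real.rpow_nonneg (Real.log_natCast_nonneg _) _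
    _ = _ := by ring

end Pool.Agent.TH841.MD
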