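import Mathlib
import Pool.Agent.TH841.MD.Up
import Pool.Agent.TH841.PT.Fam
import Pool.Agent.TH841.PT.Fin1

/-!
# Project MD: assembly
-/

set_option autoImplicit false

namespace Pool.Agent.TH841.MD

open Finset

open Pool.Agent.W307.SE (SN SN_nonneg SelR)

open Pool.Agent.TH841.NF (EF Gen)

open Pool.Agent.TH841.NF.D (HasDiv crk rk)

/-- the number of the tuples -/
lemma tup_low (hlow : LOW) (htl : TLOW) (s : ℕ) (hs : 1 ≤ s) : ∃ c : ℝ, 0 < c ∧
    ∀ X : ℕ, 2 ≤ X → (Tup s X).Nonempty →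
      c * (X * (Real.log X) ^ (2 ^ s - 2)) ≤ ((Tup s X).card : ℝ) := by
  classical
  obtain ⟨q, hq, hqi⟩ : ∃ q : Fin s → ℕ, (∀ i, (q i).Prime) ∧ Function.Injective q :=
    ⟨fun i => Nat.nth Nat.Prime i, fun i => Nat.prime_nth_prime i, fun i j h =>
      Fin.ext (Nat.nth_injective Nat.infinite_setOf_prime h)⟩
  set Q : ℕ := ∏ i, q i with hQ
  have hQ1 : 1 ≤ Q := Nat.one_le_iff_ne_zero.2 (prod_ne_zero_iff.2 fun i _ => (hq i).ne_zero)
  have h2s : 2 ≤ 2 ^ s := by
    calc 2 = 2 ^ 1 := (pow_one 2).symm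
      _ ≤ 2 ^ s := Nat.pow_le_pow_right (by norm_num) hs
  obtain ⟨c, hc, hl⟩ := hlow (2 ^ s - 1) Q (by omega) hQ1
  have hexp : 2 ^ s - 1 - 1 = 2 ^ s - 2 := by omega
  rw [hexp] at hl
  -- large `X`
  have hbig : ∀ X : ℕ, (2 * Q) ^ 2 ≤ X →
      c / (2 * Q * 2 ^ (2 ^ s - 2)) * (X * (Real.log X) ^ (2 ^ s - 2)) ≤
        ((Tup s X).card : ℝ) := by
    intro X hX
    have hQX : 2 * Q ≤ X := by nlinarith
    have hY : 2 ≤ X / Q := (Nat.le_div_iff_mul_le hQ1).2 hQX
    refine le_trans ?_ (htl s q hq hqi X)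
    refine le_trans ?_ (hl (X / Q) hY)
    have hQr : (0 : ℝ) < Q := by exact_mod_cast hQ1
    have hXr : (0 : ℝ) < X := by
      have : 0 < X := by omega
      exact_mod_cast this
    have h1 : (X : ℝ) / (2 * Q) ≤ ((X / Q : ℕ) : ℝ) := by
      rw [div_le_iff₀ (by positivity)]
      have h2 : X < (X / Q + 1) * Q := by
        have := Nat.lt_div_mul_add (a := X) hQ1
        rw [add_mul, one_mul]
        exact this
      have h3 : (X : ℝ) < ((X / Q : ℕ) + 1) * Q := by exact_mod_cast h2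
      have h4 : (1 : ℝ) ≤ ((X / Q : ℕ) : ℝ) := by exact_mod_cast (by omega : 1 ≤ X / Q)
      nlinarith
    have h5 : Real.log X / 2 ≤ Real.log ((X / Q : ℕ) : ℝ) := by
      have h6 : (X : ℝ) ≤ (((X / Q : ℕ) : ℝ)) ^ 2 := by
        have h7 : ((2 * Q) ^ 2 : ℝ) ≤ X := by exact_mod_cast hX
        have h8 : (0 : ℝ) ≤ (X : ℝ) / (2 * Q) := by positivity
        calc (X : ℝ) ≤ (X / (2 * Q)) ^ 2 := by
              rw [div_pow, le_div_iff₀ (by positivity)]
              nlinarith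
          _ ≤ _ := pow_le_pow_left₀ h8 h1 2
      have h9 := Real.log_le_log hXr h6
      rw [Real.log_pow] at h9
      push_cast at h9
      linarith
    have h0 : 0 ≤ Real.log X := Real.log_natCast_nonneg X
    calc c / (2 * Q * 2 ^ (2 ^ s - 2)) * (X * (Real.log X) ^ (2 ^ s - 2))
        = c * ((X / (2 * Q)) * (Real.log X / 2) ^ (2 ^ s - 2)) := by
          rw [div_pow]
          field_simp
      _ ≤ c * (((X / Q : ℕ) : ℝ) * (Real.log ((X / Q : ℕ) : ℝ)) ^ (2 ^ s - 2)) := by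
          refine mul_le_mul_of_nonneg_left (mul_le_mul h1 ?_ (by positivity) (by positivity)) hc.le
          exact pow_le_pow_left₀ (by positivity) h5 _
  -- small `X`
  set X0 : ℕ := (2 * Q) ^ 2 with hX0
  set b : ℝ := X0 * (Real.log X0) ^ (2 ^ s - 2) + 1 with hb
  have hb0 : 0 < b := by
    have : 0 ≤ Real.log X0 := Real.log_natCast_nonneg X0
    positivity
  refine ⟨min (c / (2 * Q * 2 ^ (2 ^ s - 2))) (1 / b), by positivity, fun X hX hne => ?_⟩
  have hX1 : (1 : ℝ) ≤ X := by exact_mod_cast (by omega : 1 ≤ X)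
  have hl0 : 0 ≤ Real.log X := Real.log_natCast_nonneg X
  rcases Nat.lt_or_ge X X0 with h | h
  · have h1 : X * (Real.log X) ^ (2 ^ s - 2) ≤ b := by
      have h2 : (X : ℝ) ≤ X0 := by exact_mod_cast h.le
      have h3 : Real.log X ≤ Real.log X0 := Real.log_le_log (by linarith) h2
      have h4 := mul_le_mul h2 (pow_le_pow_left₀ hl0 h3 (2 ^ s - 2)) (by positivity)
        (by positivity)
      rw [hb]
      linarith
    calc min (c / (2 * Q * 2 ^ (2 ^ s - 2))) (1 / b) * (X * (Real.log X) ^ (2 ^ s - 2))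
        ≤ 1 / b * b := mul_le_mul (min_le_right _ _) h1 (by positivity) (by positivity)
      _ = 1 := by field_simp
      _ ≤ _ := by exact_mod_cast hne.card_pos
  · exact (mul_le_mul_of_nonneg_right (min_le_left _ _) (by positivity)).trans (hbig X h)

/-- the moments of one component -/
lemma sum_T (hcnt : CNT) (a : Fin 3 → ℤ) (ha : ∀ k, a k ≠ 0) (ha2 : a 0 - a 1 = a 2) (s : ℕ)
    (T : Finset (Fin s)) (hT : T.Nonempty) (k : ℕ) : ∃ C : ℝ, 0 ≤ C ∧ ∀ X : ℕ, 2 ≤ X →
      ∑ d ∈ Tup s X, SN (a 0 * eT d T) (a 1 * eT d T) ^ k ≤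
        C * (X * (Real.log X) ^ (2 ^ s - 2)) := by
  classical
  have hs : 1 ≤ s := by
    obtain ⟨i, _⟩ := hT
    have := i.2
    omega
  set lam : ℝ := 2 ^ (s - 1) with hlam
  have hlam1 : 1 ≤ lam := one_le_pow₀ (by norm_num)
  obtain ⟨K1, hK10, hK1⟩ := mom_all a ha ha2 lam hlam1 k
  obtain ⟨K2, hK20, hK2⟩ := ups (lam - 1) (by linarith)
  refine ⟨2 ^ s * (K1 * K2), by positivity, fun X hX => ?_⟩
  have hX1 : (1 : ℝ) ≤ X := by exact_mod_cast (by omega : 1 ≤ X)
  have hlx : 0 < Real.log X := Real.log_pos (by exact_mod_cast (by omega : 1 < X))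
  set F : ℤ → ℝ := fun e => SN (a 0 * e) (a 1 * e) ^ k with hF
  have hF0 : ∀ e, 0 ≤ F e := fun e => pow_nonneg (SN_nonneg _ _) _
  refine ((hcnt s T hT).2 F hF0 X).trans ?_
  have h1 : ∑ g ∈ (Icc 1 X).filter Squarefree, (lam - 1) ^ g.primeFactors.card *
      ∑ e ∈ (Icc (-((X / g : ℕ) : ℤ)) ((X / g : ℕ) : ℤ)).filter (fun e => e ≠ 0),
        lam ^ e.natAbs.primeFactors.card * F e ≤
      K1 * K2 * (X * (Real.log X) ^ (2 ^ s - 2)) := by
    calc ∑ g ∈ (Icc 1 X).filter Squarefree, (lam - 1) ^ g.primeFactors.card *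
        ∑ e ∈ (Icc (-((X / g : ℕ) : ℤ)) ((X / g : ℕ) : ℤ)).filter (fun e => e ≠ 0),
          lam ^ e.natAbs.primeFactors.card * F e
        ≤ ∑ g ∈ (Icc 1 X).filter Squarefree, (lam - 1) ^ g.primeFactors.card *
          (K1 * (X / g * (Real.log X) ^ (lam - 1))) := by
          refine sum_le_sum fun g hg => mul_le_mul_of_nonneg_left ?_
            (pow_nonneg (by linarith) _)
          have hg' := mem_Icc.1 (mem_filter.1 hg).1
          refine (hK1 X (X / g) hX ((Nat.le_div_iff_mul_le hg'.1).2 (by omega))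
            (Nat.div_le_self X g)).trans ?_
          refine mul_le_mul_of_nonneg_left (mul_le_mul_of_nonneg_right ?_ ?_) hK10
          · exact Nat.cast_div_le
          · exact Real.rpow_nonneg hlx.le _
      _ = K1 * (X * (Real.log X) ^ (lam - 1)) * ∑ g ∈ (Icc 1 X).filter Squarefree,
          (lam - 1) ^ g.primeFactors.card / (g : ℝ) := by
          rw [mul_sum]
          refine sum_congr rfl fun g _ => ?_
          ring
      _ ≤ K1 * (X * (Real.log X) ^ (lam - 1)) * (K2 * (Real.log X) ^ (lam - 1)) := by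
          refine mul_le_mul_of_nonneg_left (hK2 X hX) ?_
          have := Real.rpow_nonneg hlx.le (lam - 1)
          positivity
      _ = K1 * K2 * (X * ((Real.log X) ^ (lam - 1) * (Real.log X) ^ (lam - 1))) := by ring
      _ = _ := by
          congr 2
          rw [← Real.rpow_add hlx, ← Real.rpow_natCast]
          congr 1
          have h2s : 2 ≤ 2 ^ s := by
            calc 2 = 2 ^ 1 := (pow_one 2).symm
              _ ≤ 2 ^ s := Nat.pow_le_pow_right (by norm_num) hs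
          rw [Nat.cast_sub h2s, hlam]
          push_cast
          have h3 : (2 : ℝ) ^ s = 2 * 2 ^ (s - 1) := by
            rw [← pow_succ']
            congr 1
            omega
          rw [h3]
          ring
  calc 2 ^ s * ∑ g ∈ (Icc 1 X).filter Squarefree, ((2 : ℝ) ^ (s - 1) - 1) ^ g.primeFactors.card *
      ∑ e ∈ (Icc (-((X / g : ℕ) : ℤ)) ((X / g : ℕ) : ℤ)).filter (fun e => e ≠ 0),
        ((2 : ℝ) ^ (s - 1)) ^ e.natAbs.primeFactors.card * F e
      ≤ 2 ^ s * (K1 * K2 * (X * (Real.log X) ^ (2 ^ s - 2))) :=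
        mul_le_mul_of_nonneg_left h1 (by positivity)
    _ = _ := by ring

/-- **all the moments over all multiquadratic fields of degree `2 ^ s`** -/
theorem main (hcnt : CNT) (hlow : LOW) (htl : TLOW) {A B e₁ e₂ e₃ : ℤ}
    (hE : 4 * A ^ 3 + 27 * B ^ 2 ≠ 0)
    (he : ∀ x : ℤ, x ^ 3 + A * x + B = (x - e₁) * (x - e₂) * (x - e₃))
    (s : ℕ) (hs : 1 ≤ s) (k : ℕ) :
    ∃ C : ℝ, ∀ X : ℕ, ∀ (F : (Fin s → ℤ) → Type) [∀ d, Field (F d)] [∀ d, NumberField (F d)],
      (∀ d ∈ Tup s X, Gen (F d) d) →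
      ∀ W : ∀ d, WeierstrassCurve (F d), (∀ d, W d = EF A B (F d)) →
      (∀ d ∈ Tup s X, BddAbove {q | HasDiv (W d) q}) ∧
      ∑ d ∈ Tup s X, ((2 : ℝ) ^ (rk (W d) + crk (W d))) ^ k ≤ C * (Tup s X).card ∧
      ∀ n : ℕ, (((Tup s X).filter (fun d => n ≤ rk (W d) + crk (W d))).card : ℝ) ≤
        C * (Tup s X).card / 2 ^ (k * n) := by
  classical
  obtain ⟨h12, h13, h23⟩ := Pool.Agent.TH639.SL.disc_ne hE he
  set a : Fin 3 → ℤ := ![e₂ - e₁, e₃ - e₁, e₂ - e₃] with ha
  have ha1 : ∀ i, a i ≠ 0 := by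
    intro i
    fin_cases i
    · exact h12
    · exact h13
    · exact h23
  have ha2 : a 0 - a 1 = a 2 := by
    change (e₂ - e₁) - (e₃ - e₁) = e₂ - e₃
    ring
  obtain ⟨c, hc, hlowc⟩ := tup_low hlow htl s hs
  set k' : ℕ := Fintype.card (Finset (Fin s)) * k with hk'
  choose CT hCT0 hCT using fun T : {T : Finset (Fin s) // T.Nonempty} =>
    sum_T hcnt a ha1 ha2 s T.1 T.2 k'
  set C0 : ℝ := ((SelR A B).ncard : ℝ) ^ k' with hC0
  set C1 : ℝ := C0 + ∑ T, CT T / c with hC1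
  -- the case `X ≤ 1`
  set Sd : (Fin s → ℤ) → Finset (Fin s) → ℝ := fun d T =>
    ((SelR ((∏ i ∈ T, d i) ^ 2 * A) ((∏ i ∈ T, d i) ^ 3 * B)).ncard : ℝ) with hSd
  have hSd0 : ∀ d T, 0 ≤ Sd d T := fun d T => Nat.cast_nonneg _
  set C2 : ℝ := ∑ d ∈ Tup s 1, (∏ T : Finset (Fin s), Sd d T) ^ k with hC2
  have hC00 : 0 ≤ C0 := by positivity
  have hC10 : 0 ≤ ∑ T, CT T / c := sum_nonneg fun T _ => div_nonneg (hCT0 T) hc.le
  have hC20 : 0 ≤ C2 := sum_nonneg fun d _ => pow_nonneg (prod_nonneg fun T _ => hSd0 d T) _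
  have hne : ∀ X : ℕ, ∀ d ∈ Tup s X, ∀ i, d i ≠ 0 := by
    intro X d hd i
    unfold Tup at hd
    have := (mem_filter.1 hd).2.1 i
    exact this.ne_zero
  have hsum : ∀ X : ℕ, ∑ d ∈ Tup s X, (∏ T : Finset (Fin s), Sd d T) ^ k ≤
      (C1 + C2) * (Tup s X).card := by
    intro X
    rcases (Tup s X).eq_empty_or_nonempty with h0 | h0
    · rw [h0]
      simp
    have hcard : (1 : ℝ) ≤ (Tup s X).card := by exact_mod_cast h0.card_pos
    rcases Nat.lt_or_ge X 2 with hX | hX
    · have hX1 : Tup s X ⊆ Tup s 1 := by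
        intro d hd
        unfold Tup at hd ⊢
        rw [mem_filter, Fintype.mem_piFinset] at hd ⊢
        refine ⟨fun i => ?_, hd.2.1, by omega, hd.2.2.2⟩
        have := mem_Icc.1 (hd.1 i)
        rw [mem_Icc]
        push_cast
        omega
      calc ∑ d ∈ Tup s X, (∏ T : Finset (Fin s), Sd d T) ^ k ≤ C2 :=
            sum_le_sum_of_subset_of_nonneg hX1 fun d _ _ =>
              pow_nonneg (prod_nonneg fun T _ => hSd0 d T) _
        _ = C2 * 1 := (mul_one _).symm
        _ ≤ (C1 + C2) * (Tup s X).card :=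
          mul_le_mul (by linarith) hcard (by norm_num) (by linarith)
    · have h1 : ∑ d ∈ Tup s X, (∏ T : Finset (Fin s), Sd d T) ^ k ≤
          ∑ T : Finset (Fin s), ∑ d ∈ Tup s X, Sd d T ^ k' := by
        rw [sum_comm]
        exact sum_le_sum fun d _ => Pool.Agent.TH841.NF.prod_pow_le (Sd d) (hSd0 d) k
      have h2 : ∀ T : Finset (Fin s), ∑ d ∈ Tup s X, Sd d T ^ k' ≤
          (if h : T.Nonempty then CT ⟨T, h⟩ / c else C0) * (Tup s X).card := by
        intro T
        by_cases hT : T.Nonempty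
        · rw [dif_pos hT]
          have h3 := hCT ⟨T, hT⟩ X hX
          have h4 := hlowc X hX h0
          have h5 : ∑ d ∈ Tup s X, Sd d T ^ k' ≤
              ∑ d ∈ Tup s X, SN (a 0 * eT d T) (a 1 * eT d T) ^ k' := by
            refine sum_le_sum fun d hd => pow_le_pow_left₀ (hSd0 d T) ?_ _
            obtain ⟨_, w, hw⟩ := (hcnt s T hT).1 X d hd
            have h6 := (Pool.Agent.TH841.NF.sel_tw2 hE he (c := 1) (P := eT d T) (w := w)
              (prod_ne_zero_iff.2 fun i _ => hne X d hd i) (by rw [one_mul]; exact hw)).2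
            rwa [mul_one, mul_one] at h6
          refine h5.trans (h3.trans ?_)
          calc CT ⟨T, hT⟩ * (X * (Real.log X) ^ (2 ^ s - 2))
              = CT ⟨T, hT⟩ / c * (c * (X * (Real.log X) ^ (2 ^ s - 2))) := by
                field_simp
            _ ≤ _ := mul_le_mul_of_nonneg_left h4 (div_nonneg (hCT0 _) hc.le)
        · rw [dif_neg hT]
          have hT' : T = ∅ := not_nonempty_iff_eq_empty.1 hT
          subst hT'
          have h3 : ∀ d : Fin s → ℤ, Sd d ∅ ^ k' = C0 := by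
            intro d
            rw [hSd, hC0]
            beta_reduce
            rw [prod_empty, one_pow, one_pow, one_mul, one_mul]
          rw [sum_congr rfl fun d _ => h3 d, sum_const, nsmul_eq_mul, mul_comm]
      have h3 : ∑ T : Finset (Fin s), (if h : T.Nonempty then CT ⟨T, h⟩ / c else C0) = C1 := by
        rw [hC1]
        rw [← Finset.sum_filter_add_sum_filter_not univ (fun T : Finset (Fin s) => T.Nonempty)]
        rw [add_comm]
        congr 1
        · have h4 : (univ : Finset (Finset (Fin s))).filter (fun T => ¬ T.Nonempty) = {∅} := by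
            ext T
            simp [not_nonempty_iff_eq_empty]
          rw [h4, sum_singleton, dif_neg (by simp)]
        · rw [sum_subtype (p := fun T : Finset (Fin s) => T.Nonempty) _ (by simp)
            (fun T => if h : T.Nonempty then CT ⟨T, h⟩ / c else C0)]
          refine sum_congr rfl fun T _ => ?_
          rw [dif_pos T.2]
      calc ∑ d ∈ Tup s X, (∏ T : Finset (Fin s), Sd d T) ^ k
          ≤ ∑ T : Finset (Fin s), (if h : T.Nonempty then CT ⟨T, h⟩ / c else C0) *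
            (Tup s X).card := h1.trans (sum_le_sum fun T _ => h2 T)
        _ = C1 * (Tup s X).card := by rw [← sum_mul, h3]
        _ ≤ _ := mul_le_mul_of_nonneg_right (by linarith) (Nat.cast_nonneg _)
  refine ⟨C1 + C2, fun X F _ _ hF W hW => ?_⟩
  refine Pool.Agent.TH841.NF.famN _ F W (fun d => ∏ T : Finset (Fin s), Sd d T) k _ ?_ (hsum X)
  intro d hd q hq
  rw [hW d] at hq ⊢
  have hdn := hne X d hd
  have hTn : ∀ T : Finset (Fin s), ∏ i ∈ T, d i ≠ 0 := fun T =>
    prod_ne_zero_iff.2 fun i _ => hdn i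
  refine Pool.Agent.TH841.NF.one_field (d := d) (hF d hd) hdn hE _ ?_ ?_ hq
  · intro T
    exact Pool.Agent.TH841.SH.bd_selR (Pool.Agent.TH639.SL.disc_tw (hTn T) hE)
      (Pool.Agent.TH639.SL.roots_tw he _) (Pool.Agent.TH639.SL.sel_tw hE he (hTn T)).1
  · intro T
    exact Pool.Agent.W307.RG.fin_tw hE he (hTn T)

end Pool.Agent.TH841.MD
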