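import Mathlib
import Pool.Agent.TH841.MD.Stm

/-!
# Project MD, job 3105: lower bound for the number of tuples of squarefree integers
-/

set_option autoImplicit false

namespace Pool.Agent.TH841.MD.TLOWf

open Finset Pool.Agent.TH841.MD

theorem prime_dvd_prod {A : Finset ℕ} (hA : ∀ a ∈ A, a.Prime) {p : ℕ} (hp : p.Prime) :
    p ∣ ∏ a ∈ A, a ↔ p ∈ A := by
  rw [Prime.dvd_finsetProd_iff hp.prime]
  constructor
  · rintro ⟨a, ha, h⟩
    rwa [(Nat.prime_dvd_prime_iff_eq hp (hA a ha)).1 h]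
  · intro h
    exact ⟨p, h, dvd_rfl⟩

section

variable {s : ℕ} (q : Fin s → ℕ) (n : ℕ) (E : ℕ → Finset (Fin s))

/-- the tuple of a squarefree number and a family of sets -/
def Dn (i : Fin s) : ℕ := q i * ∏ p ∈ n.primeFactors.filter (fun p => i ∈ E p), p

variable {q n E}

theorem dvd_Dn (hq : ∀ i, (q i).Prime) (i : Fin s) {p : ℕ} (hp : p.Prime) :
    p ∣ Dn q n E i ↔ p = q i ∨ (p ∈ n.primeFactors ∧ i ∈ E p) := by
  unfold Dn
  rw [hp.dvd_mul, Nat.prime_dvd_prime_iff_eq hp (hq i), prime_dvd_prod (fun a ha =>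
    Nat.prime_of_mem_primeFactors (mem_filter.1 ha).1) hp, mem_filter]

theorem Dn_ne (hq : ∀ i, (q i).Prime) (i : Fin s) : Dn q n E i ≠ 0 := by
  unfold Dn
  apply mul_ne_zero (hq i).ne_zero
  rw [prod_ne_zero_iff]
  intro a ha
  exact (Nat.prime_of_mem_primeFactors (mem_filter.1 ha).1).ne_zero

theorem ne_q (hc : n.Coprime (∏ i, q i)) {p : ℕ} (hp : p ∈ n.primeFactors) (i : Fin s) :
    p ≠ q i := by
  rintro rfl
  have h1 : q i ∣ ∏ i, q i := dvd_prod_of_mem q (mem_univ i)
  have h2 := Nat.dvd_of_mem_primeFactors hp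
  have h3 := Nat.prime_of_mem_primeFactors hp
  exact h3.one_lt.ne' (Nat.eq_one_of_dvd_coprimes hc h2 h1)

theorem Dn_dvd (hn : Squarefree n) (i : Fin s) : Dn q n E i ∣ q i * n := by
  unfold Dn
  apply mul_dvd_mul_left
  conv_rhs => rw [← Nat.prod_primeFactors_of_squarefree hn]
  exact prod_dvd_prod_of_subset _ _ _ (filter_subset _ _)

theorem Dn_sqf (hq : ∀ i, (q i).Prime) (hn : Squarefree n) (hc : n.Coprime (∏ i, q i))
    (i : Fin s) : Squarefree (Dn q n E i) := by
  apply Squarefree.squarefree_of_dvd (Dn_dvd hn i)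
  have h1 : (q i).Coprime n := by
    have h2 : q i ∣ ∏ i, q i := dvd_prod_of_mem q (mem_univ i)
    exact (Nat.Coprime.coprime_dvd_right h2 hc).symm
  exact (Nat.squarefree_mul h1).2 ⟨(hq i).squarefree, hn⟩

theorem Q_sqf (hq : ∀ i, (q i).Prime) (hi : Function.Injective q) (T : Finset (Fin s)) :
    Squarefree (∏ i ∈ T, q i) := by
  rw [Nat.squarefree_iff_prime_squarefree]
  intro p hp h
  have h1 : p ∣ ∏ i ∈ T, q i := (dvd_mul_right p p).trans h
  rw [Prime.dvd_finsetProd_iff hp.prime] at h1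
  obtain ⟨i, hiT, h2⟩ := h1
  have h3 := (Nat.prime_dvd_prime_iff_eq hp (hq i)).1 h2
  subst h3
  rw [← mul_prod_erase T q hiT] at h
  have h4 := Nat.dvd_of_mul_dvd_mul_left hp.pos h
  rw [Prime.dvd_finsetProd_iff hp.prime] at h4
  obtain ⟨j, hj, h5⟩ := h4
  have h6 := (Nat.prime_dvd_prime_iff_eq hp (hq j)).1 h5
  exact (mem_erase.1 hj).1 (hi h6).symm

/-- the primes of the product -/
theorem primes (hq : ∀ i, (q i).Prime) (hn : Squarefree n)
    (hE : ∀ p ∈ n.primeFactors, (E p).Nonempty) :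
    (∏ i, Dn q n E i).primeFactors = ((∏ i, q i) * n).primeFactors := by
  have hne : ∏ i, Dn q n E i ≠ 0 := prod_ne_zero_iff.2 fun i _ => Dn_ne hq i
  have hQ : ∏ i, q i ≠ 0 := prod_ne_zero_iff.2 fun i _ => (hq i).ne_zero
  have hn0 : n ≠ 0 := hn.ne_zero
  ext p
  rw [Nat.mem_primeFactors_of_ne_zero hne, Nat.mem_primeFactors_of_ne_zero (mul_ne_zero hQ hn0)]
  apply and_congr_right
  intro hp
  rw [Prime.dvd_finsetProd_iff hp.prime, hp.dvd_mul, Prime.dvd_finsetProd_iff hp.prime]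
  constructor
  · rintro ⟨i, -, h⟩
    rcases (dvd_Dn hq i hp).1 h with h | ⟨h, -⟩
    · exact Or.inl ⟨i, mem_univ _, by rw [h]⟩
    · exact Or.inr (Nat.dvd_of_mem_primeFactors h)
  · rintro (⟨i, -, h⟩ | h)
    · refine ⟨i, mem_univ _, (dvd_Dn hq i hp).2 (Or.inl ?_)⟩
      exact (Nat.prime_dvd_prime_iff_eq hp (hq i)).1 h
    · have hpn : p ∈ n.primeFactors := (Nat.mem_primeFactors_of_ne_zero hn0).2 ⟨hp, h⟩
      obtain ⟨i, hi⟩ := hE p hpn
      exact ⟨i, mem_univ _, (dvd_Dn hq i hp).2 (Or.inr ⟨hpn, hi⟩)⟩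

theorem R_Dn (hq : ∀ i, (q i).Prime) (hi : Function.Injective q) (hn : Squarefree n)
    (hc : n.Coprime (∏ i, q i)) (hE : ∀ p ∈ n.primeFactors, (E p).Nonempty) :
    R (fun i => (Dn q n E i : ℤ)) = (∏ i, q i) * n := by
  unfold R
  have h1 : (∏ i, (Dn q n E i : ℤ)).natAbs = ∏ i, Dn q n E i := by
    rw [← Nat.cast_prod, Int.natAbs_natCast]
  rw [h1, primes hq hn hE, Nat.prod_primeFactors_of_squarefree]
  exact (Nat.squarefree_mul hc.symm).2 ⟨Q_sqf hq hi univ, hn⟩

theorem not_sq (hq : ∀ i, (q i).Prime) (hi : Function.Injective q) (hn : Squarefree n)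
    (hc : n.Coprime (∏ i, q i)) (T : Finset (Fin s)) (hT : T.Nonempty) :
    ¬ IsSquare (∏ i ∈ T, (Dn q n E i : ℤ)) := by
  rw [← Nat.cast_prod, Int.isSquare_natCast_iff]
  rintro ⟨r, hr⟩
  obtain ⟨i, hiT⟩ := hT
  have hp := hq i
  have h1 : q i ∣ r * r := by
    rw [← hr]
    exact ((dvd_Dn hq i hp).2 (Or.inl rfl)).trans (dvd_prod_of_mem _ hiT)
  have h2 : q i ∣ r := by
    rcases hp.dvd_mul.1 h1 with h | h <;> exact h
  have h3 : q i * q i ∣ ∏ j ∈ T, Dn q n E j := by
    rw [hr]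
    exact mul_dvd_mul h2 h2
  rw [← mul_prod_erase T _ hiT] at h3
  have h4 : (q i * q i).Coprime (∏ j ∈ T.erase i, Dn q n E j) := by
    have h5 : (q i).Coprime (∏ j ∈ T.erase i, Dn q n E j) := by
      rw [hp.coprime_iff_not_dvd, Prime.dvd_finsetProd_iff hp.prime]
      rintro ⟨j, hj, h6⟩
      rcases (dvd_Dn hq j hp).1 h6 with h7 | ⟨h7, -⟩
      · exact (mem_erase.1 hj).1 (hi h7).symm
      · exact ne_q hc h7 i rfl
    exact Nat.Coprime.mul_left h5 h5
  have h7 := h4.dvd_of_dvd_mul_right h3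
  have h8 := (Nat.squarefree_iff_prime_squarefree.1 (Dn_sqf (E := E) hq hn hc i)) (q i) hp
  exact h8 h7

end

/-- the total family of a dependent one -/
def ext {s : ℕ} (n : ℕ) (S : (p : ℕ) → p ∈ n.primeFactors → Finset (Fin s)) (p : ℕ) :
    Finset (Fin s) :=
  if h : p ∈ n.primeFactors then S p h else ∅

theorem ext_eq {s : ℕ} (n : ℕ) (S : (p : ℕ) → p ∈ n.primeFactors → Finset (Fin s)) (p : ℕ)
    (h : p ∈ n.primeFactors) : ext n S p = S p h := by
  unfold ext
  rw [dif_pos h]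

theorem tlow : Pool.Agent.TH841.MD.TLOW := by
  classical
  intro s q hq hi X
  set Q := ∏ i, q i with hQ
  set N := (Icc 1 (X / Q)).filter (fun n => Squarefree n ∧ n.Coprime Q) with hN
  set t : ℕ → Finset (Finset (Fin s)) := fun _ => univ.erase ∅ with ht
  have hcard : ∀ n : ℕ, ((n.primeFactors.pi t).card : ℝ) =
      ((2 ^ s - 1 : ℕ) : ℝ) ^ n.primeFactors.card := by
    intro n
    rw [card_pi, ht]
    simp only [prod_const, card_erase_of_mem (mem_univ _), card_univ, Fintype.card_finset,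
      Fintype.card_fin, Nat.cast_pow]
  have hmain : (N.sigma fun n : ℕ => n.primeFactors.pi t).card ≤ (Tup s X).card := by
    have hmem : ∀ (n : ℕ) (S : (p : ℕ) → p ∈ n.primeFactors → Finset (Fin s)),
        (⟨n, S⟩ : Σ n : ℕ, ((p : ℕ) → p ∈ n.primeFactors → Finset (Fin s))) ∈
          (N.sigma fun n : ℕ => n.primeFactors.pi t) →
        (1 ≤ n ∧ Q * n ≤ X) ∧ Squarefree n ∧ n.Coprime Q ∧
          ∀ p ∈ n.primeFactors, (ext n S p).Nonempty := by
      intro n S h
      rw [mem_sigma, hN, mem_filter, mem_Icc, mem_pi] at h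
      obtain ⟨⟨⟨h1, h2⟩, h3, h4⟩, h5⟩ := h
      refine ⟨⟨h1, ?_⟩, h3, h4, fun p hp => ?_⟩
      · calc Q * n ≤ Q * (X / Q) := Nat.mul_le_mul_left _ h2
          _ ≤ X := Nat.mul_div_le X Q
      · rw [ext_eq n S p hp, nonempty_iff_ne_empty]
        exact (mem_erase.1 (h5 p hp)).1
    apply card_le_card_of_injOn
      (fun x => fun i => ((Dn q x.1 (ext x.1 x.2) i : ℕ) : ℤ))
    · rintro ⟨n, S⟩ hx
      obtain ⟨⟨h1, h2⟩, h3, h4, h5⟩ := hmem n S hx
      have hR := R_Dn hq hi h3 h4 h5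
      simp only [SetLike.mem_coe]
      unfold Tup
      rw [mem_filter, Fintype.mem_piFinset]
      have hle : ∀ i, Dn q n (ext n S) i ≤ X := by
        intro i
        have h6 : Dn q n (ext n S) i ∣ Q * n := by
          refine (Dn_dvd h3 i).trans (mul_dvd_mul_right ?_ n)
          exact dvd_prod_of_mem q (mem_univ i)
        have h7 : 0 < Q * n := by
          have : 0 < Q := by
            rw [hQ]
            exact prod_pos fun i _ => (hq i).pos
          positivity
        exact (Nat.le_of_dvd h7 h6).trans h2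
      refine ⟨fun i => ?_, fun i => ?_, ?_, fun T hT => ?_⟩
      · rw [mem_Icc]
        have := hle i
        constructor
        · have : (0 : ℤ) ≤ (Dn q n (ext n S) i : ℤ) := Int.natCast_nonneg _
          linarith [Int.natCast_nonneg X]
        · exact_mod_cast hle i
      · exact Int.squarefree_natCast.2 (Dn_sqf hq h3 h4 i)
      · exact hR.le.trans h2
      · exact not_sq hq hi h3 h4 T hT
    · rintro ⟨n, S⟩ hx ⟨n', S'⟩ hx' heq
      obtain ⟨-, h3, h4, h5⟩ := hmem n S hx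
      obtain ⟨-, h3', h4', h5'⟩ := hmem n' S' hx'
      have heq' : ∀ i, Dn q n (ext n S) i = Dn q n' (ext n' S') i := by
        intro i
        have h6 : ((Dn q n (ext n S) i : ℕ) : ℤ) = ((Dn q n' (ext n' S') i : ℕ) : ℤ) :=
          congrFun heq i
        exact_mod_cast h6
      have hsub : ∀ (m m' : ℕ) (E E' : ℕ → Finset (Fin s)), m.Coprime Q →
          (∀ p ∈ m.primeFactors, (E p).Nonempty) →
          (∀ i, Dn q m E i = Dn q m' E' i) → ∀ p ∈ m.primeFactors, p ∈ m'.primeFactors := by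
        intro m m' E E' hm hE hD p hp
        obtain ⟨i, hiE⟩ := hE p hp
        have hpp := Nat.prime_of_mem_primeFactors hp
        have h6 : p ∣ Dn q m E i := (dvd_Dn hq i hpp).2 (Or.inr ⟨hp, hiE⟩)
        rw [hD i] at h6
        rcases (dvd_Dn hq i hpp).1 h6 with h7 | ⟨h7, -⟩
        · exact absurd h7 (ne_q hm hp i)
        · exact h7
      have hpf : n.primeFactors = n'.primeFactors :=
        Subset.antisymm (hsub n n' _ _ h4 h5 heq')
          (hsub n' n _ _ h4' h5' (fun i => (heq' i).symm))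
      have hnn : n = n' := by
        rw [← Nat.prod_primeFactors_of_squarefree h3, ← Nat.prod_primeFactors_of_squarefree h3',
          hpf]
      subst hnn
      congr 1
      funext p hp
      have hpp := Nat.prime_of_mem_primeFactors hp
      ext i
      have h6 : i ∈ ext n S p ↔ i ∈ ext n S' p := by
        have h7 := dvd_Dn (n := n) (E := ext n S) hq i hpp
        have h8 := dvd_Dn (n := n) (E := ext n S') hq i hpp
        rw [heq' i] at h7
        have h9 := h7.symm.trans h8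
        have h10 := ne_q h4 hp i
        constructor
        · intro h
          rcases h9.1 (Or.inr ⟨hp, h⟩) with h' | h'
          · exact absurd h' h10
          · exact h'.2
        · intro h
          rcases h9.2 (Or.inr ⟨hp, h⟩) with h' | h'
          · exact absurd h' h10
          · exact h'.2
      rw [ext_eq n S p hp, ext_eq n S' p hp] at h6
      exact h6
  rw [card_sigma] at hmain
  calc ∑ n ∈ N, ((2 ^ s - 1 : ℕ) : ℝ) ^ n.primeFactors.card
      = ((∑ n ∈ N, (n.primeFactors.pi t).card : ℕ) : ℝ) := by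
        rw [Nat.cast_sum]
        exact sum_congr rfl fun n _ => (hcard n).symm
    _ ≤ ((Tup s X).card : ℝ) := by exact_mod_cast hmain

end Pool.Agent.TH841.MD.TLOWf
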